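import Pool.Agent.H38.Jit.Hall

/-!
The prefix condition for paired demands.
-/

set_option autoImplicit false

namespace Pool.Agent.H38.Jit

def Near (η σ : ℚ) : Prop := ∃ k : ℤ, |σ - k| < η

def TT (B u θ : ℚ) (L : List ℚ) : ℤ :=
  ⌊2 * u - θ + B⌋ + (⌊u + θ + B⌋ + (L.map fun σ => ⌊u + σ + B⌋ + ⌊u - σ + B⌋).sum)

theorem sum_shift (L : List ℚ) (f : ℚ → ℤ) (c : ℚ) :
    (L.map fun σ => (f σ : ℚ) + c).sum = ((L.map f).sum : ℤ) + L.length * c := by
  induction L with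
  | nil => simp
  | cons a L ih => simp only [List.map_cons, List.sum_cons, ih, List.length_cons]; push_cast; ring

theorem core1 {η θ : ℚ} {y : ℤ} {L : List ℚ} (hη : (2 * L.length + 3) * η = 2 / 3) (h0 : 0 ∈ L)
    (h : TT (1 - 5 * η / 2) (3 * y * η / 2) θ L < y) :
    (∀ σ ∈ L, Near η σ) ∧ ∃ k : ℤ, η / 2 < θ - k ∧ θ - k < η := by
  obtain ⟨B, hB⟩ : ∃ B, B = 1 - 5 * η / 2 := ⟨_, rfl⟩
  obtain ⟨u, hu⟩ : ∃ u, u = 3 * y * η / 2 := ⟨_, rfl⟩
  rw [← hB, ← hu, TT] at h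
  obtain ⟨f, hf⟩ : ∃ f : ℚ → ℤ, f = fun σ => ⌊u + σ + B⌋ + ⌊u - σ + B⌋ := ⟨_, rfl⟩
  rw [← hf] at h
  have hF : (1 : ℚ) ≤ L.length := by exact_mod_cast List.length_pos_of_mem h0
  have e0 : 0 < η := by nlinarith
  have e1 : η ≤ 2 / 15 := by nlinarith
  have hP : ∀ σ, 0 < (f σ : ℚ) + (2 - 2 * u - 2 * B) := fun σ => by
    rw [hf]; push_cast
    linarith [Int.lt_floor_add_one (u + σ + B), Int.lt_floor_add_one (u - σ + B)]
  have h' : ((⌊2 * u - θ + B⌋ + (⌊u + θ + B⌋ + (L.map f).sum) : ℤ) : ℚ) + 1 ≤ y := by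
    exact_mod_cast h
  push_cast [-Int.cast_list_sum] at h'
  have a1 := Int.lt_floor_add_one (2 * u - θ + B)
  have a2 := Int.lt_floor_add_one (u + θ + B)
  have a3 := Int.lt_floor_add_one (u + B)
  have a4 := Int.floor_le (u + θ + B)
  obtain ⟨a, ha⟩ : ∃ a, a = ⌊u + B⌋ := ⟨_, rfl⟩
  rw [← ha] at a3
  have hy : (2 * L.length + 3) * u = y := by rw [hu]; linear_combination 3 * y / 2 * hη
  have key : ((L.map f).sum : ℤ) + L.length * (2 - 2 * u - 2 * B) +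
      (⌊u + θ + B⌋ + 1 - u - θ - B) < (2 * L.length + 1 / 2) * η := by
    rw [hB] at *; nlinarith
  have s1 := List.single_le_sum (l := L.map fun σ => (f σ : ℚ) + (2 - 2 * u - 2 * B))
    (fun x hx => by obtain ⟨σ, -, rfl⟩ := List.mem_map.1 hx; exact (hP σ).le) _
    (List.mem_map_of_mem h0)
  rw [sum_shift] at s1
  have f0 : (f 0 : ℚ) = 2 * a := by rw [hf, ha]; simp; ring
  have s2 : a + 1 - u - B < 1 / 3 := by nlinarith
  have k0 : ∀ σ, 0 ≤ (f σ : ℚ) + -(2 * a) := fun σ => by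
    have : -1 < f σ - 2 * a := by
      have : (-1 : ℚ) < f σ - 2 * a := by linarith [hP σ]
      exact_mod_cast this
    have : (0 : ℚ) ≤ ((f σ - 2 * a : ℤ) : ℚ) := by exact_mod_cast (by omega : 0 ≤ f σ - 2 * a)
    push_cast at this; linarith
  have s3 : ∀ σ ∈ L, (f σ : ℚ) + -(2 * a) ≤ ((L.map f).sum : ℤ) + L.length * -(2 * (a : ℚ)) :=
    fun σ hσ => by
      rw [← sum_shift]
      exact List.single_le_sum
        (fun x hx => by obtain ⟨σ, -, rfl⟩ := List.mem_map.1 hx; exact k0 σ) _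
        (List.mem_map_of_mem hσ)
  obtain ⟨j, hj⟩ : ∃ j : ℤ, j = a * (2 * L.length + 3) + 1 - y := ⟨_, rfl⟩
  have hφ : a + 1 - u - B = η * (1 + 3 / 2 * j) := by
    rw [hj, hB, hu]; push_cast; linear_combination -(3 / 2) * a * hη
  have s4 := s3 0 h0
  have j0 : j = 0 := by
    have b1 : (-1 : ℚ) < j := by nlinarith
    have b2 : (j : ℚ) < 1 := by
      by_contra hh
      have : 5 / 2 * η ≤ a + 1 - u - B := by nlinarith
      nlinarith
    have b1' : -1 < j := by exact_mod_cast b1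
    have b2' : j < 1 := by exact_mod_cast b2
    omega
  rw [j0, Int.cast_zero, mul_zero, add_zero, mul_one] at hφ
  have k1 : ((L.map f).sum : ℤ) + L.length * -(2 * (a : ℚ)) + (⌊u + θ + B⌋ + 1 - u - θ - B) <
      η / 2 := by
    have : (2 - 2 * u - 2 * B) = -(2 * a) + 2 * η := by linarith
    rw [this] at key; linarith
  refine ⟨fun σ hσ => ⟨⌊u + σ + B⌋ - a, ?_⟩, ⌊u + θ + B⌋ - a, ?_, ?_⟩
  · have c1 : f σ - 2 * a < 1 := by
      have : (f σ : ℚ) - 2 * a < 1 := by linarith [s3 σ hσ]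
      exact_mod_cast this
    have c2 : ((f σ - 2 * a : ℤ) : ℚ) ≤ 0 := by exact_mod_cast (by omega : f σ - 2 * a ≤ 0)
    rw [hf] at c2
    push_cast at c2 ⊢
    rw [abs_lt]
    constructor <;>
      linarith [Int.lt_floor_add_one (u + σ + B), Int.lt_floor_add_one (u - σ + B)]
  · push_cast; linarith
  · push_cast; linarith

theorem core2 {η θ : ℚ} {a : ℤ} {L : List ℚ} (hη : (2 * L.length + 3) * η = 2 / 3)
    (h1 : ∀ σ ∈ L, Near η σ) (h2 : ∃ k : ℤ, η / 2 < θ - k ∧ θ - k < η) :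
    TT (1 - 5 * η / 2) (a + 3 * η / 2) θ L < (2 * L.length + 3) * a + 1 := by
  have hF : (0 : ℚ) ≤ L.length := by positivity
  have e0 : 0 < η := by nlinarith
  have e1 : η ≤ 2 / 9 := by nlinarith
  obtain ⟨k, k1, k2⟩ := h2
  rw [TT, List.map_congr_left (g := fun _ => 2 * a), show ⌊2 * (a + 3 * η / 2) - θ + _⌋ =
    2 * a - k from _, show ⌊a + 3 * η / 2 + θ + _⌋ = a + k from _]
  · simp; linarith
  · rw [Int.floor_eq_iff]; push_cast; constructor <;> linarith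
  · rw [Int.floor_eq_iff]; push_cast; constructor <;> linarith
  · intro σ hσ
    obtain ⟨k, hk⟩ := h1 σ hσ
    rw [abs_lt] at hk
    rw [show ⌊a + 3 * η / 2 + σ + _⌋ = a + k from _, show ⌊a + 3 * η / 2 - σ + _⌋ = a - k from _]
    · ring
    · rw [Int.floor_eq_iff]; push_cast; constructor <;> linarith [hk.1, hk.2]
    · rw [Int.floor_eq_iff]; push_cast; constructor <;> linarith [hk.1, hk.2]

end Pool.Agent.H38.Jit
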