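import Pool.Agent.H38.NP.Defs

/-!
Bottleneck just-in-time sequencing.
-/

set_option autoImplicit false

namespace Pool.Agent.H38.Jit

open Pool.Agent.H38.NP Finset

/-- The number of occurrences of the letter `i` among the first `k` letters of the word `S`. -/
def cnt {D n : ℕ} (S : Fin D → Fin n) (i : Fin n) (k : ℕ) : ℕ :=
  #{p : Fin D | p.val < k ∧ S p = i}

/-- There is a word `S` of length `D = ∑ d i` in which the letter `i` occurs exactly `d i` times
and whose bottleneck deviation is at most `B`. -/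
def Jit (d : List ℕ) (B : ℚ) : Prop :=
  ∃ S : Fin d.sum → Fin d.length, (∀ i, #{p | S p = i} = d.get i) ∧
    ∀ i k, 1 ≤ k → k ≤ d.sum → |(cnt S i k : ℚ) - k * ((d.get i : ℚ) / d.sum)| ≤ B

/-- Yes-instances: positive demands in binary, and the bound `B = p / q` with `p`, `q` in
binary. -/
def BJIT (I : List Bin × Bin × Bin) : Prop :=
  (∀ x ∈ I.1, 0 < x.val) ∧ 0 < I.2.2.val ∧
    Jit (I.1.map Bin.val) ((I.2.1.val : ℚ) / I.2.2.val)

end Pool.Agent.H38.Jit
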