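import Pool.Agent.H38.Jit.Red

/-!
Bottleneck just-in-time sequencing is coNP-hard.
-/

set_option autoImplicit false

namespace Pool.Agent.H38.Jit

open Pool.Agent.H38.NP Pool.Agent.H38.ER

def dem (Q q : ℤ) (fs : List ℤ) : List ℤ := (2 * Q - q) :: (Q + q) :: fs.flatMap fun s => [Q + s, Q - s]

theorem dem_sum (Q q : ℤ) (fs : List ℤ) (f : ℤ → ℤ) : ((dem Q q fs).map f).sum =
    f (2 * Q - q) + (f (Q + q) + (fs.map fun s => f (Q + s) + f (Q - s)).sum) := by
  simp only [dem, List.map_cons, List.sum_cons]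
  congr 2
  induction fs with
  | nil => simp
  | cons s fs ih => simp only [List.flatMap_cons, List.map_append, List.sum_append, ih]; simp

theorem jit_iff {M : ℕ} {Q q : ℤ} {fs : List ℤ} {η : ℚ} (hM : M = 2 * fs.length + 3)
    (h9 : 9 ≤ M) (hη : M * η = 2 / 3) (hQ : 0 < Q) (hs : ∀ s ∈ q :: fs, 3 * M * |s| ≤ Q) :
    (∀ z ∈ dem Q q fs, 0 < z) ∧
    ((∀ y : ℤ, y ≤ TT (1 - 5 * η / 2) (3 * y * η / 2) (y / (M * Q) * q)
      (fs.map fun s : ℤ => y / (M * Q) * s)) → Jit ((dem Q q fs).map Int.toNat) (1 - 5 * η / 2)) ∧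
    (Jit ((dem Q q fs).map Int.toNat) (1 - 5 * η / 2) → ∀ y : ℤ, 1 ≤ y → y ≤ M * Q →
      y ≤ TT (1 - 5 * η / 2) (3 * y * η / 2) (y / (M * Q) * q)
      (fs.map fun s : ℤ => y / (M * Q) * s)) := by
  have hM' : (9 : ℚ) ≤ M := by exact_mod_cast h9
  have hM'' : (9 : ℤ) ≤ M := by exact_mod_cast h9
  have e0 : 0 < η := by nlinarith
  have e1 : η ≤ 2 / 27 := by nlinarith
  have hQ' : (0 : ℚ) < Q := by exact_mod_cast hQ
  have ht : ∀ z ∈ (Q + q) :: fs.flatMap fun s => [Q + s, Q - s], 3 * M * |z - Q| ≤ Q := by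
    simp only [List.forall_mem_cons, List.forall_mem_flatMap, add_sub_cancel_left,
      sub_sub_cancel_left, abs_neg] at hs ⊢
    exact ⟨hs.1, fun s h => ⟨hs.2 s h, hs.2 s h, by simp⟩⟩
  have hq := hs q List.mem_cons_self
  have hlow : ∀ z ∈ dem Q q fs, (3 * M - 1) * Q ≤ 3 * M * z := by
    rw [dem, List.forall_mem_cons]
    exact ⟨by nlinarith [le_abs_self q], fun z hz => by nlinarith [ht z hz, neg_abs_le (z - Q)]⟩
  have hpos : ∀ z ∈ dem Q q fs, 0 < z := fun z hz => by
    by_contra hh; nlinarith [hlow z hz]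
  have cast : ∀ z ∈ dem Q q fs, ((z.toNat : ℕ) : ℚ) = z := fun z hz => by
    rw [← Int.cast_natCast, Int.toNat_of_nonneg (hpos z hz).le]
  obtain ⟨D, hD⟩ : ∃ D, ((dem Q q fs).map Int.toNat).sum = D := ⟨_, rfl⟩
  have hDZ : (D : ℤ) = M * Q := by
    rw [← hD, Nat.cast_list_sum, List.map_map, List.map_congr_left (g := id)
      (f := Nat.cast ∘ Int.toNat) fun z hz => Int.toNat_of_nonneg (hpos z hz).le, dem_sum, hM]
    simp; ring
  have hDQ : (D : ℚ) = M * Q := by exact_mod_cast hDZ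
  have key : ∀ y : ℤ, (((dem Q q fs).map Int.toNat).map fun z : ℕ =>
      ⌊y * ((z : ℚ) / D) + (1 - 5 * η / 2)⌋).sum = TT (1 - 5 * η / 2) (3 * y * η / 2)
        (y / (M * Q) * q) (fs.map fun s : ℤ => y / (M * Q) * s) := fun y => by
    have e : ∀ s : ℚ, y * (s / D) = y / (M * Q) * s := fun s => by rw [hDQ]; ring
    have e' : y / (M * Q) * (Q : ℚ) = 3 * y * η / 2 := by
      field_simp; linear_combination -3 * y * hη
    rw [List.map_map, List.map_congr_left (g := fun z : ℤ => ⌊y / (M * Q) * (z : ℚ) +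
      (1 - 5 * η / 2)⌋) fun z hz => by simp only [Function.comp, cast z hz, e], dem_sum, TT,
      List.map_map, ← e']
    simp only [Function.comp_def]
    push_cast
    simp only [mul_add, mul_sub, mul_left_comm _ (2 : ℚ)]
  refine ⟨hpos, fun h => ?_, fun h y h1 h2 => ?_⟩
  · have hd : (D : ℚ) ≠ 0 := by rw [hDQ]; positivity
    have hη' : η = 2 / (3 * M) := by field_simp; linarith
    have l4 : ((M - 4 : ℕ) : ℚ) = M - 4 := by rw [Nat.cast_sub (by omega)]; rfl
    refine suff (d0 := (2 * Q - q).toNat)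
      (ds := ((Q + q) :: fs.flatMap fun s => [Q + s, Q - s]).map Int.toNat) (fun w hw => ?_)
      (by linarith) (by linarith) (M - 4) D hD (fun w hw => ?_) (fun w hw => ?_)
      fun y => (h y).trans_eq (key y).symm
    · obtain ⟨z, hz, rfl⟩ := List.mem_map.1 (show w ∈ (dem Q q fs).map Int.toNat from hw)
      have := hpos z hz; omega
    · obtain ⟨z, hz, rfl⟩ := List.mem_map.1 hw
      have a : (3 * M * z : ℚ) ≤ (3 * M + 1) * Q := by
        have : 3 * M * z ≤ (3 * M + 1) * Q := by nlinarith [ht z hz, le_abs_self (z - Q)]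
        exact_mod_cast this
      rw [cast z (List.mem_cons_of_mem _ hz), l4, hDQ, hη', ← sub_nonneg]
      have : 2 * (1 - 5 * (2 / (3 * (M : ℚ))) / 2) - 1 - (M - 4) * (z / (M * Q)) =
          ((3 * M - 10) * M * Q - (M - 4) * (3 * M * z)) / (3 * M * M * Q) := by
        field_simp; ring
      rw [this]
      exact div_nonneg (by nlinarith [mul_le_mul_of_nonneg_left a (by linarith : (0 : ℚ) ≤ M - 4)])
        (by positivity)
    · obtain ⟨z, hz, rfl⟩ := List.mem_map.1 (show w ∈ (dem Q q fs).map Int.toNat from hw)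
      have a : (3 * M - 1 : ℚ) * Q ≤ 3 * M * z := by exact_mod_cast hlow z hz
      rw [cast z hz, l4, hDQ, hη', ← sub_pos]
      have : (M - 4 + 1) * (z / (M * Q)) - (2 * (1 - 5 * (2 / (3 * (M : ℚ))) / 2) - 1) =
          ((M - 3) * (3 * M * z) - (3 * M - 10) * M * Q) / (3 * M * M * Q) := by
        field_simp; ring
      rw [this]
      exact div_pos (by nlinarith [mul_le_mul_of_nonneg_left a (by linarith : (0 : ℚ) ≤ M - 3)])
        (by positivity)
  · obtain ⟨t, rfl⟩ := Int.eq_ofNat_of_zero_le (by omega : 0 ≤ y)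
    have := nec h t (by omega) (by omega)
    rw [hD] at this
    exact this.trans_eq (key t)

def nv (φ : F3) : ℕ := (φ.map fun C => C.1.1 + C.2.1.1 + C.2.2.1).sum + 1
def MM (φ : F3) : ℕ := 2 * (2 * nv φ + 3 + φ.length) + 3
def pw (M k : ℕ) : ℤ := ((6 * (M * M) : ℕ) : ℤ) ^ k
def inst (φ : F3) : List Bin × Bin × Bin :=
  ((dem (pw (MM φ) (nv φ + 1)) (pw (MM φ) (nv φ - 0))
    (forms (2 * MM φ) (nv φ) (fun j => pw (MM φ) (nv φ - j)) φ)).map fun z => Bin.mk z.toNat,
    Bin.mk (3 * MM φ - 5), Bin.mk (3 * MM φ))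

section
variable {α : Type} [Enc α]
@[fun_prop] theorem pt_pw {f g : α → ℕ} (hf : PT f) (hg : PT g) : PT fun a => pw (f a) (g a) :=
  (pt_zprod (l := fun a => List.replicate (g a) ((6 * (f a * f a) : ℕ) : ℤ))
    (by fun_prop)).of_eq fun a => by simp [pw]
@[fun_prop] theorem pt_lv {M m : α → ℕ} {l : α → Lit} (hM : PT M) (hm : PT m) (hl : PT l) :
    PT fun a => lv (fun j => pw (M a) (m a - j)) (l a) := by
  unfold lv; fun_prop
end

attribute [fun_prop] pt_pos

theorem pt_inst : PT inst := by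
  have h1 : PT nv := by unfold nv; fun_prop
  have h2 : PT MM := by unfold MM; fun_prop
  have h3 : PT fun p : ℕ × ℕ × F3 => forms (2 * p.1) p.2.1 (fun j => pw p.1 (p.2.1 - j)) p.2.2 := by
    unfold forms; fun_prop
  have h4 : PT fun p : ℤ × ℤ × List ℤ => (dem p.1 p.2.1 p.2.2).map fun z => Bin.mk z.toNat := by
    unfold dem; fun_prop
  exact PT.mk (h4.comp (g := fun φ => (pw (MM φ) (nv φ + 1), pw (MM φ) (nv φ - 0),
    forms (2 * MM φ) (nv φ) (fun j => pw (MM φ) (nv φ - j)) φ))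
    (PT.mk (by fun_prop) (PT.mk (by fun_prop) (h3.comp (g := fun φ => (MM φ, nv φ, φ))
      (by fun_prop))))) (by fun_prop)

theorem digits (W : ℕ) (c : ℕ → ℕ) (hc : ∀ j, c j < W) (n : ℕ) : ∃ Y < W ^ n, ∀ j < n,
    ∃ k r : ℕ, r < W ^ j ∧ Y = k * W ^ (j + 1) + c j * W ^ j + r := by
  induction n with
  | zero => exact ⟨0, by simp, by simp⟩
  | succ n ih =>
    obtain ⟨Y, h1, h2⟩ := ih
    refine ⟨c n * W ^ n + Y, ?_, fun j hj => ?_⟩
    · have := Nat.mul_le_mul_right (W ^ n) (hc n)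
      rw [pow_succ]; nlinarith
    · rcases Nat.lt_succ_iff_lt_or_eq.1 hj with hj | rfl
      · obtain ⟨k, r, h3, h4⟩ := h2 j hj
        obtain ⟨i, rfl⟩ := Nat.exists_eq_add_of_lt hj
        exact ⟨k + c (j + i + 1) * W ^ i, r, h3, by rw [h4]; ring⟩
      · exact ⟨0, Y, h1, by ring⟩

theorem inst_iff (φ : F3) : Sat3 φ ↔ ¬ BJIT (inst φ) := by
  obtain ⟨m, hm⟩ : ∃ m, nv φ = m := ⟨_, rfl⟩
  obtain ⟨M, hM⟩ : ∃ M, MM φ = M := ⟨_, rfl⟩
  have hφ : Bd m φ := fun C hC => by
    have := List.single_le_sum (l := φ.map fun C => C.1.1 + C.2.1.1 + C.2.2.1)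
      (fun _ _ => Nat.zero_le _) _ (List.mem_map_of_mem hC)
    unfold nv at hm; omega
  have hM1 : ∀ {R : Type} [Ring R] (p : ℕ → R), M = 2 * (forms (2 * M) m p φ).length + 3 :=
    fun p => by rw [forms_len, ← hm, ← hM]; rfl
  have h9 : 9 ≤ M := by have := hM1 (fun _ => (0 : ℤ)); rw [forms_len] at this; omega
  have hM' : (9 : ℚ) ≤ M := by exact_mod_cast h9
  have hM'' : (9 : ℤ) ≤ M := by exact_mod_cast h9
  obtain ⟨η, hη⟩ : ∃ η : ℚ, M * η = 2 / 3 := ⟨2 / (3 * M), by field_simp⟩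
  have hη' : η = 2 / (3 * M) := by field_simp; linarith
  have p0 : ∀ k, 0 < pw M k := fun k => by unfold pw; positivity
  have p1 : ∀ j, pw M (m - j) ≤ pw M m := fun j =>
    pow_le_pow_right₀ (by push_cast; nlinarith) (by omega)
  have p2 : pw M (m + 1) = 3 * M * (2 * M * pw M m) := by unfold pw; push_cast; ring
  have p3 : ∀ l, |lv (fun j => pw M (m - j)) l| ≤ pw M m := fun l => by
    unfold lv
    have := p0 (m - (l.1 + 1)); have := p1 (l.1 + 1); have := p0 m
    cases l.2 <;> simp only [cond_true, cond_false, Nat.sub_zero, abs_le] <;> omega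
  obtain ⟨a1, a2, a3⟩ := jit_iff (hM1 fun j => pw M (m - j)) h9 hη (p0 (m + 1))
    (q := pw M (m - 0)) (by
      have k : ∀ s : ℤ, |s| ≤ 2 * M * pw M m → 3 * M * |s| ≤ pw M (m + 1) := fun s hs => by
        rw [p2]; exact mul_le_mul_of_nonneg_left hs (by positivity)
      have k2 : ∀ j, 3 * M * |pw M (m - j)| ≤ pw M (m + 1) := fun j =>
        k _ (by rw [abs_of_pos (p0 _)]; nlinarith [p1 j, p0 m])
      refine List.forall_mem_cons.2 ⟨k2 0, forall_forms.2 ⟨by simpa using (p0 _).le,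
        fun j _ => k2 j, fun j _ => k _ ?_, fun C _ => k _ ?_⟩⟩
      · rw [abs_of_nonneg (by have := p0 (m - j); positivity)]
        push_cast; nlinarith [p1 j]
      · have b1 := abs_le.1 (p3 C.1)
        have b2 := abs_le.1 (p3 C.2.1)
        have b3 := abs_le.1 (p3 C.2.2)
        have := p0 m
        rw [abs_le, Nat.sub_zero]
        constructor <;> nlinarith [b1.1, b1.2, b2.1, b2.2, b3.1, b3.2])
  simp only [forms_map] at a2 a3
  have hB : (((3 * M - 5 : ℕ) : ℚ) / (3 * M : ℕ)) = 1 - 5 * η / 2 := by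
    rw [Nat.cast_sub (by omega), hη']; push_cast; field_simp
  have e : BJIT (inst φ) ↔ Jit ((dem (pw M (m + 1)) (pw M (m - 0))
      (forms (2 * M) m (fun j => pw M (m - j)) φ)).map Int.toNat) (1 - 5 * η / 2) := by
    simp only [BJIT, inst, hm, hM, hB, List.map_map, Function.comp_def, List.forall_mem_map]
    exact ⟨fun h => h.2.2, fun h => ⟨fun z hz => by have := a1 z hz; omega, by omega, h⟩⟩
  have hl : ∀ p : ℕ → ℚ, (2 * ((forms (2 * M) m p φ).length : ℚ) + 3) = M := fun p => by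
    exact_mod_cast (hM1 p).symm
  rw [e]
  constructor
  · rintro ⟨a, ha⟩ h
    obtain ⟨W, hW⟩ : ∃ W, W = 6 * (M * M) := ⟨_, rfl⟩
    have hW' : (W : ℚ) = 6 * (M * M) := by exact_mod_cast hW
    obtain ⟨Y, y1, y2⟩ := digits W (fun j => 3 * M * if j = 0 then 1 else (a (j - 1)).toNat)
      (fun j => by
        have : (if j = 0 then 1 else (a (j - 1)).toNat) ≤ 1 := by
          split_ifs; exacts [le_rfl, Bool.toNat_le _]
        nlinarith) (m + 1)
    choose! k r hr hY using y2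
    have y3 : (Y : ℤ) < pw M (m + 1) := by unfold pw; rw [← hW]; exact_mod_cast y1
    have b := a3 h (M * Y + 1) (le_add_of_nonneg_left (by positivity)) (by nlinarith)
    obtain ⟨c1, c2⟩ := enc_sat (θ := fun j => ((M * Y + 1 : ℤ) : ℚ) / (M * pw M (m + 1)) *
        pw M (m - j)) (k := fun j => k j) (τ := fun j => (M * r j + 1) / (M * W ^ (j + 1)))
        hφ hη h9 ha (fun j hj => by
          obtain ⟨i, rfl⟩ := Nat.exists_eq_add_of_le hj
          have := hY j (by omega)
          have e3 : (Y : ℚ) = k j * W ^ (j + 1) +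
              3 * M * (if j = 0 then 1 else (a (j - 1)).toNat) * W ^ j + r j := by
            exact_mod_cast this
          have e4 : 3 / 4 * η = 3 * M / W := by rw [hη', hW']; field_simp; ring
          have : (W : ℚ) ≠ 0 := by rw [hW']; positivity
          unfold pw
          rw [← hW, Nat.add_sub_cancel_left, e4]
          push_cast
          rw [e3, Nat.cast_ite, Nat.cast_one]
          field_simp
          ring)
        fun j hj => ⟨by positivity, by
          have e4 : 3 / 8 * η ^ 2 = 1 / W := by rw [hη', hW']; field_simp; ring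
          have h5 : (r j : ℚ) + 1 ≤ W ^ j := by exact_mod_cast hr j (by omega)
          have : (0 : ℚ) < W := by rw [hW']; positivity
          rw [e4, div_le_div_iff₀ (by positivity) this, pow_succ]
          nlinarith [mul_le_mul_of_nonneg_left h5 (by positivity : (0 : ℚ) ≤ M * W)]⟩
    have d := core2 (a := Y) (by rw [hl]; exact hη) c1 c2
    have e5 : 3 * ((M * Y + 1 : ℤ) : ℚ) * η / 2 = ((Y : ℤ) : ℚ) + 3 * η / 2 := by
      push_cast; linear_combination 3 / 2 * Y * hη
    rw [e5] at b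
    have e6 := hM1 fun j => ((M * Y + 1 : ℤ) : ℚ) / (M * pw M (m + 1)) * pw M (m - j)
    rw [show ∀ x : ℕ, 2 * (x : ℤ) + 3 = ((2 * x + 3 : ℕ) : ℤ) from fun _ => by push_cast; rfl,
      ← e6] at d
    exact absurd b (not_le.2 d)
  · intro h
    obtain ⟨y, hy⟩ := not_forall.1 (mt a2 h)
    obtain ⟨c1, c2⟩ := core1 (L := forms (2 * M) m _ φ) (by rw [hl]; exact hη)
      List.mem_cons_self (not_le.1 hy)
    exact dec_sat hφ hη h9 c1 c2

instance : EncInj (List Bin × Bin × Bin) := inferInstance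

theorem bjit_hard : CoNPHard (lang BJIT) :=
  (sat3_nph.reduce (C' := fun _ => True) (P' := fun I => ¬ BJIT I) inst pt_inst
    fun φ _ => ⟨trivial, inst_iff φ⟩).coNPHard fun _ _ => Iff.rfl

end Pool.Agent.H38.Jit
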