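import Pool.Agent.H38.Jit.Defs

/-!
Necessary and sufficient conditions for just-in-time sequences.
-/

set_option autoImplicit false

namespace Pool.Agent.H38.Jit

open Finset

theorem hall_iv {J : Type} [Fintype J] [DecidableEq J] (N : J → Finset ℕ)
    (hne : ∀ j, (N j).Nonempty)
    (hcv : ∀ j a b c, a ∈ N j → b ∈ N j → a ≤ c → c ≤ b → c ∈ N j)
    (h : ∀ a b, a ≤ b → #{j | N j ⊆ Ico a b} ≤ b - a) :
    ∃ f : J → ℕ, f.Injective ∧ ∀ j, f j ∈ N j := by
  have key : ∀ U : Finset ℕ, #{j | N j ⊆ U} ≤ #U := by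
    intro U
    induction U using Finset.strongInduction with
    | H U ih =>
      rcases U.eq_empty_or_nonempty with rfl | hU
      · rw [card_empty, Nat.le_zero, card_eq_zero, filter_eq_empty_iff]
        exact fun j _ hj => (hne j).ne_empty (subset_empty.1 hj)
      obtain ⟨a, ha, hm⟩ := U.exists_min_image id hU
      have ex : ∃ b, a ≤ b ∧ b ∉ U := ⟨U.sup id + a + 1, by omega, fun hh => by
        have := le_sup (f := id) hh; simp only [id] at this; omega⟩
      classical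
      obtain ⟨b, ⟨hab, hb⟩, hmin⟩ : ∃ b, (a ≤ b ∧ b ∉ U) ∧ ∀ c < b, ¬(a ≤ c ∧ c ∉ U) :=
        ⟨Nat.find ex, Nat.find_spec ex, fun c hc => Nat.find_min ex hc⟩
      have hsub : Ico a b ⊆ U := fun c hc => by
        rw [mem_Ico] at hc
        by_contra hh; exact hmin c hc.2 ⟨hc.1, hh⟩
      have hlt : a < b := lt_of_le_of_ne hab fun e => hb (e ▸ ha)
      have h1 := ih (U \ Ico a b) (sdiff_ssubset hsub ⟨a, mem_Ico.2 ⟨le_rfl, hlt⟩⟩)
      have h2 := h a b hab
      have h3 : ({j | N j ⊆ U} : Finset J) ⊆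
          ({j | N j ⊆ Ico a b} : Finset J) ∪ ({j | N j ⊆ U \ Ico a b} : Finset J) := by
        intro j hj
        simp only [mem_union, mem_filter, mem_univ, true_and] at hj ⊢
        by_cases c : ∃ x ∈ N j, x < b
        · obtain ⟨x, hx, hxb⟩ := c
          refine Or.inl fun z hz => mem_Ico.2 ⟨hm z (hj hz), ?_⟩
          by_contra hh
          exact hb (hj (hcv j x z b hx hz hxb.le (by omega)))
        · refine Or.inr fun z hz => mem_sdiff.2 ⟨hj hz, fun hh => c ⟨z, hz, (mem_Ico.1 hh).2⟩⟩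
      have h4 := (card_le_card h3).trans (card_union_le _ _)
      have h5 := card_sdiff_add_card_eq_card hsub
      rw [Nat.card_Ico] at h5
      omega
  refine (Finset.all_card_le_biUnion_card_iff_exists_injective N).1 fun s => ?_
  refine le_trans (card_le_card fun j hj => ?_) (key _)
  exact mem_filter.2 ⟨mem_univ _, subset_biUnion_of_mem N hj⟩

theorem suff_fin {n D : ℕ} (d : Fin n → ℕ) (hD : ∑ i, d i = D) (hp : ∀ i, 0 < d i) (B : ℚ)
    (hB1 : 1 / 2 ≤ B) (hB2 : B < 1)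
    (h : ∀ x y : ℕ, x ≤ y →
      ∑ i, (⌈y * ((d i : ℚ) / D) - B⌉ - ⌊x * ((d i : ℚ) / D) + B⌋).toNat ≤ y - x) :
    ∃ S : Fin D → Fin n, (∀ i, #{p | S p = i} = d i) ∧
      ∀ i k, 1 ≤ k → k ≤ D → |(cnt S i k : ℚ) - k * ((d i : ℚ) / D)| ≤ B := by
  classical
  obtain ⟨r, hr⟩ : ∃ r : Fin n → ℚ, ∀ i, (d i : ℚ) / D = r i := ⟨_, fun _ => rfl⟩
  simp only [hr] at h ⊢
  have hD0 : ∀ i : Fin n, (0 : ℚ) < D := fun i => by
    have := single_le_sum (f := d) (fun _ _ => Nat.zero_le _) (mem_univ i)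
    have := hp i
    exact_mod_cast (by omega : 0 < D)
  have hr0 : ∀ i, 0 < r i := fun i => hr i ▸ div_pos (by exact_mod_cast hp i) (hD0 i)
  have hrD : ∀ i, D * r i = d i := fun i => by
    rw [← hr i]; have := hD0 i; field_simp
  let N : (Σ i, Fin (d i)) → Finset ℕ := fun j =>
    {p ∈ range D | p * r j.1 - B ≤ j.2.val ∧ (j.2.val : ℚ) + 1 ≤ (p + 1) * r j.1 + B}
  have hN : ∀ j p, p ∈ N j ↔ p * r j.1 - B ≤ j.2.val ∧ (j.2.val : ℚ) + 1 ≤ (p + 1) * r j.1 + B := by
    intro j p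
    simp only [N, mem_filter, mem_range, and_iff_right_iff_imp]
    intro hh
    have h1 : (j.2.val : ℚ) + 1 ≤ d j.1 := by exact_mod_cast j.2.2
    have : (p : ℚ) < D := lt_of_mul_lt_mul_right (by rw [hrD]; linarith [hh.1]) (hr0 j.1).le
    exact_mod_cast this
  have mono : ∀ (i : Fin n) (a b : ℕ), a ≤ b → a * r i ≤ b * r i := fun i a b hab =>
    mul_le_mul_of_nonneg_right (by exact_mod_cast hab) (hr0 i).le
  have hne : ∀ j, (N j).Nonempty := fun j => by
    refine ⟨⌊(j.2.val + B) / r j.1⌋₊, (hN _ _).2 ⟨?_, ?_⟩⟩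
    · have := Nat.floor_le (a := (j.2.val + B) / r j.1) (div_nonneg (by positivity) (hr0 _).le)
      rw [le_div_iff₀ (hr0 _)] at this; linarith
    · have := Nat.lt_floor_add_one ((j.2.val + B) / r j.1)
      rw [div_lt_iff₀ (hr0 _)] at this; linarith
  obtain ⟨f, hf, hfN⟩ := hall_iv N hne (fun j a b c ha hb hac hcb => by
      rw [hN] at ha hb ⊢
      have := mono j.1 _ _ hac
      have := mono j.1 _ _ hcb
      constructor <;> nlinarith [ha.1, ha.2, hb.1, hb.2]) fun a b hab => by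
    refine le_trans ?_ (h a b hab)
    rw [card_eq_sum_card_fiberwise (f := Sigma.fst) (t := univ) (fun _ _ => mem_univ _)]
    refine sum_le_sum fun i _ => ?_
    rw [← Int.card_Ico]
    refine card_le_card_of_injOn (fun j => (j.2.val : ℤ)) (fun j hj => ?_) ?_
    · simp only [coe_filter, mem_filter, mem_univ, true_and, Set.mem_ofPred_eq] at hj
      obtain ⟨hj, rfl⟩ := hj
      obtain ⟨q, hq⟩ := hne j
      have hq' := mem_Ico.1 (hj hq)
      rw [hN] at hq
      simp only [coe_Ico, Set.mem_Ico]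
      constructor
      · rw [← Int.lt_add_one_iff, Int.floor_lt]
        push_cast
        by_contra hh
        rcases a with _ | a
        · have : (0 : ℚ) ≤ j.2.val := by positivity
          simp at hh; linarith
        · have := mem_Ico.1 (hj ((hN j a).2 ⟨by linarith [mono j.1 a q (by omega)], by
            push_cast at hh; linarith⟩))
          omega
      · rw [Int.lt_ceil]
        push_cast
        by_contra hh
        have := mem_Ico.1 (hj ((hN j b).2 ⟨by linarith, by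
          linarith [mono j.1 q b (by omega), hq.2, add_mul (q : ℚ) 1 (r j.1),
            add_mul (b : ℚ) 1 (r j.1)]⟩))
        omega
    · rintro ⟨i1, k1⟩ h1 ⟨i2, k2⟩ h2 e
      simp only [coe_filter, mem_filter, mem_univ, true_and, Set.mem_ofPred_eq] at h1 h2
      obtain rfl := h1.2
      obtain rfl := h2.2
      simp only [Nat.cast_inj] at e
      rw [Fin.ext e]
  have hlt : ∀ j, f j < D := fun j => mem_range.1 (mem_filter.1 (hfN j)).1
  have hbij : Function.Bijective fun j => (⟨f j, hlt j⟩ : Fin D) :=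
    (Fintype.bijective_iff_injective_and_card _).2
      ⟨fun a b e => hf (congrArg Fin.val e), by simp [hD]⟩
  obtain ⟨e, he⟩ : ∃ e : (Σ i, Fin (d i)) ≃ Fin D, ∀ j, (e j).val = f j :=
    ⟨Equiv.ofBijective _ hbij, fun _ => rfl⟩
  have hc : ∀ i (P : Fin D → Prop) [DecidablePred P],
      #{p | P p ∧ (e.symm p).1 = i} = #{k : Fin (d i) | P (e ⟨i, k⟩)} := by
    intro i P _
    symm
    refine card_bij (fun k _ => e ⟨i, k⟩) (fun k hk => by simpa using hk)
      (fun a _ b _ hh => by simpa using hh) fun p hp => ?_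
    obtain ⟨⟨i', k⟩, rfl⟩ := e.surjective p
    simp only [mem_filter, mem_univ, true_and, Equiv.symm_apply_apply] at hp
    obtain ⟨h1, rfl⟩ := hp
    exact ⟨k, by simpa using h1, rfl⟩
  refine ⟨fun p => (e.symm p).1, fun i => by simpa using hc i fun _ => True, fun i t _ ht => ?_⟩
  rw [cnt, hc i fun p => p.val < t, abs_le]
  simp only [he]
  constructor
  · have h1 : ⌈t * r i - B⌉₊ ≤ d i := Nat.ceil_le.2 (by linarith [mono i t D ht, hrD i])
    have h2 : #(range ⌈t * r i - B⌉₊) ≤ #{k : Fin (d i) | f ⟨i, k⟩ < t} := by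
      refine card_le_card_of_surjOn Fin.val fun k hk => ?_
      simp only [coe_range, Set.mem_Iio] at hk
      refine ⟨⟨k, by omega⟩, ?_, rfl⟩
      simp only [coe_filter, mem_univ, true_and, Set.mem_ofPred_eq]
      by_contra hh
      have := ((hN _ _).1 (hfN ⟨i, ⟨k, by omega⟩⟩)).1
      have := mono i t _ (not_lt.1 hh)
      rw [Nat.lt_ceil] at hk
      simp only at *
      linarith
    rw [card_range] at h2
    have h3 : (⌈t * r i - B⌉₊ : ℚ) ≤ _ := Nat.cast_le.2 h2
    linarith [Nat.le_ceil (t * r i - B)]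
  · have h0 : 0 ≤ t * r i + B := by have := hr0 i; positivity
    have h2 : #{k : Fin (d i) | f ⟨i, k⟩ < t} ≤ #(range ⌊t * r i + B⌋₊) := by
      refine card_le_card_of_injOn Fin.val (fun k hk => ?_) fun a _ b _ => Fin.ext
      simp only [coe_filter, mem_univ, true_and, Set.mem_ofPred_eq] at hk
      have h1 := ((hN _ _).1 (hfN ⟨i, k⟩)).2
      have := mono i (f ⟨i, k⟩ + 1) t hk
      simp only [coe_range, Set.mem_Iio]
      rw [← Nat.add_one_le_iff, Nat.le_floor_iff h0]
      push_cast at this ⊢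
      simp only at h1
      linarith
    rw [card_range] at h2
    have h3 : _ ≤ (⌊t * r i + B⌋₊ : ℚ) := Nat.cast_le.2 h2
    linarith [Nat.floor_le h0]

theorem nec {d : List ℕ} {B : ℚ} (h : Jit d B) (t : ℕ) (h1 : 1 ≤ t) (h2 : t ≤ d.sum) :
    (t : ℤ) ≤ (d.map fun z : ℕ => ⌊t * ((z : ℚ) / d.sum) + B⌋).sum := by
  obtain ⟨S, -, hS⟩ := h
  rw [← Fin.sum_univ_fun_getElem]
  have e : t = ∑ i, cnt S i t := by
    have : #{p : Fin d.sum | p.val < t} = t := by
      rw [Fin.card_filter_val_lt]; omega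
    refine this.symm.trans ?_
    rw [card_eq_sum_card_fiberwise (f := S) (t := univ) (fun _ _ => mem_univ _)]
    exact sum_congr rfl fun i _ => by rw [cnt, filter_filter]
  conv_lhs => rw [e]
  push_cast
  refine sum_le_sum fun i _ => Int.le_floor.2 ?_
  have := (abs_le.1 (hS i t h1 h2)).2
  simp only [List.get_eq_getElem] at this
  push_cast at this ⊢
  linarith

theorem suff {d0 : ℕ} {ds : List ℕ} {B : ℚ} (hp : ∀ z ∈ d0 :: ds, 0 < z)
    (hB1 : 1 / 2 ≤ B) (hB2 : B < 1) (l D : ℕ) (hD : (d0 :: ds).sum = D)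
    (h1 : ∀ z ∈ ds, l * ((z : ℚ) / D) ≤ 2 * B - 1)
    (h2 : ∀ z ∈ d0 :: ds, 2 * B - 1 < (l + 1) * ((z : ℚ) / D))
    (h : ∀ y : ℤ, y ≤ ((d0 :: ds).map fun z : ℕ => ⌊y * ((z : ℚ) / D) + B⌋).sum) :
    Jit (d0 :: ds) B := by
  subst hD
  refine suff_fin (d0 :: ds).get (by simp [← List.sum_ofFn]) (fun i => hp _ (List.get_mem _ _)) B
    hB1 hB2 fun x y hxy => ?_
  generalize hD : (d0 :: ds).sum = D at *
  simp only [List.get_eq_getElem]
  rw [Fin.sum_univ_fun_getElem (d0 :: ds)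
    fun z : ℕ => (⌈y * ((z : ℚ) / D) - B⌉ - ⌊x * ((z : ℚ) / D) + B⌋).toNat]
  obtain ⟨k, rfl⟩ := Nat.exists_eq_add_of_le hxy
  have r0 : ∀ z : ℕ, (0 : ℚ) ≤ z / D := fun z => by positivity
  rcases le_or_gt k l with hk | hk
  · have hk' : (k : ℚ) ≤ l := by exact_mod_cast hk
    have up : ∀ z : ℕ, ((⌈(x + k : ℕ) * ((z : ℚ) / D) - B⌉ - ⌊x * ((z : ℚ) / D) + B⌋ : ℤ) : ℚ) <
        k * ((z : ℚ) / D) - 2 * B + 2 := fun z => by
      push_cast
      linarith [Int.ceil_lt_add_one ((x + k) * ((z : ℚ) / D) - B),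
        Int.lt_floor_add_one (x * ((z : ℚ) / D) + B)]
    rw [List.map_cons, List.sum_cons, List.sum_eq_zero]
    · have h3 : (d0 : ℚ) / D ≤ 1 := div_le_one_of_le₀ (by
        rw [← hD]; simp only [List.sum_cons]; push_cast
        have : (0 : ℚ) ≤ (ds.map Nat.cast).sum := List.sum_nonneg (by simp)
        linarith) (by positivity)
      have h4 := up d0
      have : ⌈(x + k : ℕ) * ((d0 : ℚ) / D) - B⌉ - ⌊x * ((d0 : ℚ) / D) + B⌋ < k + 1 := by
        have : (k : ℚ) * (d0 / D) ≤ k := mul_le_of_le_one_right (by positivity) h3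
        exact_mod_cast h4.trans_le (by linarith : _ ≤ (k : ℚ) + 1)
      omega
    · intro w hw
      obtain ⟨z, hz, rfl⟩ := List.mem_map.1 hw
      have h4 := up z
      have : ⌈(x + k : ℕ) * ((z : ℚ) / D) - B⌉ - ⌊x * ((z : ℚ) / D) + B⌋ < 1 := by
        have := mul_le_mul_of_nonneg_right hk' (r0 z)
        exact_mod_cast h4.trans_le (by linarith [h1 z hz] : _ ≤ (1 : ℚ))
      omega
  · have hk' : (l : ℚ) + 1 ≤ k := by exact_mod_cast hk
    have a := h x
    have b := h (-(x + k : ℕ))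
    have key : ∀ L : List ℕ, (∀ z ∈ L, 2 * B - 1 < (l + 1) * ((z : ℚ) / D)) →
        (((L.map fun z : ℕ =>
          (⌈(x + k : ℕ) * ((z : ℚ) / D) - B⌉ - ⌊x * ((z : ℚ) / D) + B⌋).toNat).sum : ℕ) : ℤ) =
        -(L.map fun z : ℕ => ⌊((-(x + k : ℕ) : ℤ) : ℚ) * ((z : ℚ) / D) + B⌋).sum -
          (L.map fun z : ℕ => ⌊((x : ℤ) : ℚ) * ((z : ℚ) / D) + B⌋).sum := by
      intro L hL
      induction L with
      | nil => simp
      | cons z L ih =>
        simp only [List.map_cons, List.sum_cons, Nat.cast_add]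
        simp only [Nat.cast_add] at ih
        rw [ih fun w hw => hL w (List.mem_cons_of_mem _ hw)]
        have e : ⌊((-((x : ℤ) + k) : ℤ) : ℚ) * ((z : ℚ) / D) + B⌋ =
            -⌈((x : ℚ) + k) * ((z : ℚ) / D) - B⌉ := by
          rw [← Int.floor_neg]; congr 1; push_cast; ring
        have : -1 < ⌈((x : ℚ) + k) * ((z : ℚ) / D) - B⌉ - ⌊x * ((z : ℚ) / D) + B⌋ := by
          have := mul_le_mul_of_nonneg_right hk' (r0 z)
          have h5 : (-1 : ℚ) < ⌈((x : ℚ) + k) * ((z : ℚ) / D) - B⌉ - ⌊x * ((z : ℚ) / D) + B⌋ := by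
            linarith [Int.le_ceil ((x + k) * ((z : ℚ) / D) - B),
              Int.floor_le (x * ((z : ℚ) / D) + B), hL z List.mem_cons_self]
          exact_mod_cast h5
        rw [e, Int.toNat_of_nonneg (by omega), Int.cast_natCast]
        ring
    have := key _ h2
    omega

end Pool.Agent.H38.Jit
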