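import Pool.Agent.H38.Jit.QDefs
import Pool.Agent.H38.Jit.Fin

/-!
Sequences with two special models.
-/

set_option autoImplicit false

namespace Pool.Agent.H38.Jit

open Finset

def fl (B : ℚ) (D : ℕ) (y : ℤ) (z : ℕ) : ℤ := ⌊y * ((z : ℚ) / D) + B⌋

theorem suff2 {u z d0 : ℕ} {ds : List ℕ} {B : ℚ} (hp : ∀ w ∈ u :: z :: d0 :: ds, 0 < w)
    (hB1 : 1 / 2 ≤ B) (hB2 : B < 1) (l D : ℕ) (hD : (u :: z :: d0 :: ds).sum = D)
    (h1 : ∀ w ∈ u :: z :: ds, l * ((w : ℚ) / D) ≤ 2 * B - 1)
    (h2 : ∀ w ∈ u :: d0 :: ds, 2 * B - 1 < (l + 1) * ((w : ℚ) / D))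
    (hG : ∀ y : ℤ, y ≤ fl B D y z + ((u :: d0 :: ds).map (fl B D y)).sum)
    (hH : ∀ x y : ℤ, x ≤ y →
      x - y ≤ ((u :: d0 :: ds).map (fl B D x)).sum + ((u :: d0 :: ds).map (fl B D (-y))).sum) :
    Jit (u :: z :: d0 :: ds) B := by
  subst hD
  refine suff_fin (u :: z :: d0 :: ds).get (by simp [← List.sum_ofFn])
    (fun i => hp _ (List.get_mem _ _)) B hB1 hB2 fun x y hxy => ?_
  generalize hD : (u :: z :: d0 :: ds).sum = D at *
  simp only [List.get_eq_getElem]
  obtain ⟨t, ht⟩ : ∃ t : ℕ → ℤ, t = fun w : ℕ =>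
    ⌈y * ((w : ℚ) / D) - B⌉ - ⌊x * ((w : ℚ) / D) + B⌋ := ⟨_, rfl⟩
  have ht' : ∀ w : ℕ, ⌈y * ((w : ℚ) / D) - B⌉ - ⌊x * ((w : ℚ) / D) + B⌋ = t w := fun w => by rw [ht]
  simp only [ht']
  rw [Fin.sum_univ_fun_getElem (u :: z :: d0 :: ds) fun w : ℕ => (t w).toNat]
  obtain ⟨k, rfl⟩ := Nat.exists_eq_add_of_le hxy
  have r0 : ∀ z : ℕ, (0 : ℚ) ≤ z / D := fun z => by positivity
  rcases le_or_gt k l with hk | hk
  · have hk' : (k : ℚ) ≤ l := by exact_mod_cast hk
    have up : ∀ z : ℕ, (t z : ℚ) < k * ((z : ℚ) / D) - 2 * B + 2 := fun z => by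
      rw [← ht']
      push_cast
      linarith [Int.ceil_lt_add_one ((x + k) * ((z : ℚ) / D) - B),
        Int.lt_floor_add_one (x * ((z : ℚ) / D) + B)]
    have z0 : ∀ w ∈ u :: z :: ds, (t w).toNat = 0 := fun w hw => by
      have : t w < 1 := by
        have := mul_le_mul_of_nonneg_right hk' (r0 w)
        exact_mod_cast (up w).trans_le (by linarith [h1 w hw] : _ ≤ (1 : ℚ))
      omega
    simp only [List.map_cons, List.sum_cons]
    rw [z0 u (by simp), z0 z (by simp), List.sum_eq_zero]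
    · have h3 : (d0 : ℚ) / D ≤ 1 := div_le_one_of_le₀ (by
        have : d0 ≤ D := by rw [← hD]; simp only [List.sum_cons]; omega
        exact_mod_cast this) (by positivity)
      have : t d0 < k + 1 := by
        have : (k : ℚ) * (d0 / D) ≤ k := mul_le_of_le_one_right (by positivity) h3
        exact_mod_cast (up d0).trans_le (by linarith : _ ≤ (k : ℚ) + 1)
      omega
    · intro w hw
      obtain ⟨v, hv, rfl⟩ := List.mem_map.1 hw
      exact z0 v (by simp [hv])
  · have hk' : (l : ℚ) + 1 ≤ k := by exact_mod_cast hk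
    have e : ∀ w, t w = -fl B D (-(x + k : ℕ)) w - fl B D x w := fun w => by
      rw [← ht', fl, fl, ← Int.ceil_neg]; congr 2; push_cast; ring
    have key : ∀ L : List ℕ, (∀ z ∈ L, 2 * B - 1 < (l + 1) * ((z : ℚ) / D)) →
        (((L.map fun z : ℕ => (t z).toNat).sum : ℕ) : ℤ) =
        -(L.map (fl B D (-(x + k : ℕ)))).sum - (L.map (fl B D x)).sum := by
      intro L hL
      induction L with
      | nil => simp
      | cons z L ih =>
        simp only [List.map_cons, List.sum_cons]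
        rw [Nat.cast_add, ih fun w hw => hL w (List.mem_cons_of_mem _ hw)]
        have : -1 < t z := by
          have := mul_le_mul_of_nonneg_right hk' (r0 z)
          have h5 : (-1 : ℚ) < t z := by
            rw [← ht']; push_cast
            linarith [Int.le_ceil ((x + k) * ((z : ℚ) / D) - B),
              Int.floor_le (x * ((z : ℚ) / D) + B), hL z List.mem_cons_self]
          exact_mod_cast h5
        rw [Int.toNat_of_nonneg (by omega), e]
        ring
    have a := key _ h2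
    have b := hG x
    have c := hG (-(x + k : ℕ))
    have d := hH x (x + k : ℕ) (by omega)
    have f := e z
    simp only [List.map_cons, List.sum_cons] at a b c d ⊢
    omega

section
variable {D n : ℕ} (S : Fin D → Fin n)

theorem cnt_sum {t : ℕ} (h : t ≤ D) : ∑ i, cnt S i t = t := by
  have : #{p : Fin D | p.val < t} = t := by rw [Fin.card_filter_val_lt]; omega
  refine Eq.trans ?_ this
  rw [card_eq_sum_card_fiberwise (f := S) (t := univ) (fun _ _ => mem_univ _)]
  exact sum_congr rfl fun i _ => by rw [cnt, filter_filter]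

theorem cnt_mono (i : Fin n) {s t : ℕ} (h : s ≤ t) : cnt S i s ≤ cnt S i t :=
  card_le_card fun p hp => by
    simp only [mem_filter, mem_univ, true_and] at hp ⊢; exact ⟨by omega, hp.2⟩

theorem cnt_succ (p : Fin D) : cnt S (S p) p < cnt S (S p) (p + 1) :=
  card_lt_card ⟨fun q hq => by
    simp only [mem_filter, mem_univ, true_and] at hq ⊢; exact ⟨by omega, hq.2⟩,
    fun h => by simpa using @h p (by simp)⟩
end

theorem Within.le {d : List ℕ} {S : Fin d.sum → Fin d.length} {B : ℚ} (h : Within d S B)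
    (i : Fin d.length) {t : ℕ} (h1 : 1 ≤ t) (h2 : t ≤ d.sum) :
    (cnt S i t : ℤ) ≤ fl B d.sum t d[i] ∧ -fl B d.sum (-t) d[i] ≤ cnt S i t := by
  have := abs_le.1 (h i t h1 h2)
  simp only [dev, List.get_eq_getElem] at this
  generalize cnt S i t = c at this ⊢
  generalize d.sum = D at this ⊢
  refine ⟨Int.le_floor.2 (by push_cast; simp only [Fin.getElem_fin]; linarith [this.2]),
    neg_le.1 (Int.le_floor.2 (by push_cast; simp only [Fin.getElem_fin]; linarith [this.1]))⟩

/-- The letter is one of the two special models. -/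
theorem letter_lt {u z : ℕ} {ds : List ℕ} {S : Fin (u :: z :: ds).sum → Fin (u :: z :: ds).length}
    {B : ℚ} (h : Within _ S B) (p : Fin (u :: z :: ds).sum) (h1 : 1 ≤ p.val)
    (hw : ∀ w ∈ ds, fl B (u :: z :: ds).sum (p.val + 1 : ℕ) w +
      fl B (u :: z :: ds).sum (-p.val) w ≤ 0) : (S p).val < 2 := by
  by_contra hh
  have a := cnt_succ S p
  have b := (h.le (S p) (t := p + 1) (by omega) p.2).1
  have c := (h.le (S p) h1 p.2.le).2
  have : ∀ q : Fin (u :: z :: ds).length, ¬ q.val < 2 → (u :: z :: ds)[q] ∈ ds := by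
    rintro ⟨i, hi⟩ hh
    obtain ⟨j, rfl⟩ : ∃ j, i = j + 2 := ⟨i - 2, by simp only at hh; omega⟩
    simp
  have := hw _ (this _ hh)
  omega

/-- The letter is not one of the two special models. -/
theorem letter_ge {u z : ℕ} {ds : List ℕ} {S : Fin (u :: z :: ds).sum → Fin (u :: z :: ds).length}
    {B : ℚ} (h : Within _ S B) (p : Fin (u :: z :: ds).sum) {y : ℕ} (h1 : 1 ≤ y) (h2 : y ≤ p.val)
    (hy : ((u :: ds).map (fl B (u :: z :: ds).sum y)).sum < y)
    (hz : fl B (u :: z :: ds).sum (p.val + 1 : ℕ) z ≤ 1)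
    (hu : (p.val : ℤ) + fl B (u :: z :: ds).sum (-p.val) u +
      (ds.map (fl B (u :: z :: ds).sum (-(p.val + 1 : ℕ)))).sum ≤ 0) : 2 ≤ (S p).val := by
  have a := cnt_succ S p
  have hp := p.2
  have s1 := cnt_sum S (t := y) (by omega)
  have s2 := cnt_sum S (t := p + 1) p.2
  simp only [List.length_cons, Fin.sum_univ_succ] at s1 s2
  have b1 : ((∑ i : Fin ds.length, cnt S i.succ.succ y : ℕ) : ℤ) ≤
      (ds.map (fl B (u :: z :: ds).sum y)).sum := by
    rw [← Fin.sum_univ_fun_getElem]; push_cast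
    exact sum_le_sum fun i _ => (h.le i.succ.succ h1 (by omega)).1
  have b2 : -(ds.map (fl B (u :: z :: ds).sum (-(p.val + 1 : ℕ)))).sum ≤
      ((∑ i : Fin ds.length, cnt S i.succ.succ (p + 1) : ℕ) : ℤ) := by
    rw [← Fin.sum_univ_fun_getElem, ← sum_neg_distrib, Nat.cast_sum]
    exact sum_le_sum fun i _ => (h.le i.succ.succ (by omega) p.2).2
  have c1 : (cnt S (0 : Fin (ds.length + 2)) y : ℤ) ≤ fl B _ y u :=
    (h.le (0 : Fin (ds.length + 2)) h1 (by omega)).1
  have c2 : (cnt S (Fin.succ 0 : Fin (ds.length + 2)) (p + 1) : ℤ) ≤ fl B _ (p.val + 1 : ℕ) z :=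
    (h.le (Fin.succ 0 : Fin (ds.length + 2)) (by omega) p.2).1
  have c3 : -fl B _ (-p.val) u ≤ (cnt S (0 : Fin (ds.length + 2)) p : ℤ) :=
    (h.le (0 : Fin (ds.length + 2)) (by omega) p.2.le).2
  have c4 := cnt_mono S (Fin.succ 0 : Fin (ds.length + 2)) h2
  have c5 := cnt_mono S (Fin.succ 0 : Fin (ds.length + 2)) (Nat.le_succ p)
  simp only [List.map_cons, List.sum_cons] at hy
  by_contra hh
  rcases (by omega : (S p).val = 0 ∨ (S p).val = 1) with e | e
  · rw [show S p = (0 : Fin (ds.length + 2)) from Fin.ext e] at a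
    simp only [List.sum_cons, Nat.succ_eq_add_one] at *
    omega
  · rw [show S p = (Fin.succ 0 : Fin (ds.length + 2)) from Fin.ext e] at a
    simp only [List.sum_cons, Nat.succ_eq_add_one] at *
    omega

end Pool.Agent.H38.Jit
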