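import Pool.Agent.H38.Jit.Q1

/-!
Prefix sums for the two-level construction.
-/

set_option autoImplicit false

namespace Pool.Agent.H38.Jit

open Pool.Agent.H38.NP

def HH (B u τ f : ℚ) (L : List ℚ) : ℤ :=
  ⌊u - τ - f + B⌋ + (⌊2 * u + f + B⌋ + (L.map fun σ => ⌊u + σ + B⌋ + ⌊u - σ + B⌋).sum)

theorem hh_std {g η τ f : ℚ} {a : ℤ} {L : List ℚ} (e0 : 0 < η) (e1 : η ≤ 1 / 2)
    (h1 : ∀ σ ∈ L, Near η σ) : HH (1 - 3 * g - η) (a + 3 * g) τ f L =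
      (2 * L.length + 3) * a + 1 + (1 + ⌊-τ - f - η⌋ + ⌊f + (3 * g - η)⌋) := by
  rw [HH, List.map_congr_left (g := fun _ => 2 * a),
    show a + 3 * g - τ - f + (1 - 3 * g - η) = -τ - f - η + ((a + 1 : ℤ) : ℚ) by push_cast; ring,
    show 2 * (a + 3 * g) + f + (1 - 3 * g - η) = f + (3 * g - η) + ((2 * a + 1 : ℤ) : ℚ) by
      push_cast; ring, Int.floor_add_intCast, Int.floor_add_intCast]
  · simp; ring
  · intro σ hσ
    obtain ⟨k, hk⟩ := h1 σ hσ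
    rw [abs_lt] at hk
    rw [show ⌊a + 3 * g + σ + _⌋ = a + k from _, show ⌊a + 3 * g - σ + _⌋ = a - k from _]
    · ring
    · rw [Int.floor_eq_iff]; push_cast; constructor <;> linarith [hk.1, hk.2]
    · rw [Int.floor_eq_iff]; push_cast; constructor <;> linarith [hk.1, hk.2]

theorem hh_cases {g η τ f : ℚ} {y : ℤ} {L : List ℚ} (hg : (2 * L.length + 3) * (3 * g) = 1)
    (h0 : [0, 0].Sublist L) (η1 : 11 / 8 * g ≤ η) (η2 : η ≤ 15 / 8 * g) :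
    ⌊1 - 10 * g - τ⌋ + y ≤ HH (1 - 3 * g - η) (3 * g * y) τ f L ∨
    ((∀ σ ∈ L, Near η σ) ∧ HH (1 - 3 * g - η) (3 * g * y) τ f L =
      y + (1 + ⌊-τ - f - η⌋ + ⌊f + (3 * g - η)⌋)) := by
  obtain ⟨B, hB⟩ : ∃ B, B = 1 - 3 * g - η := ⟨_, rfl⟩
  obtain ⟨u, hu⟩ : ∃ u, u = 3 * g * y := ⟨_, rfl⟩
  rw [← hu]
  refine or_iff_not_imp_left.2 fun h => ?_
  rw [← hB, HH, not_le] at h
  obtain ⟨p, hf⟩ : ∃ p : ℚ → ℤ, p = fun σ => ⌊u + σ + B⌋ + ⌊u - σ + B⌋ := ⟨_, rfl⟩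
  rw [← hf] at h
  have hF : (2 : ℚ) ≤ L.length := by exact_mod_cast h0.length_le
  have g0 : 0 < g := by nlinarith
  have g1 : g ≤ 1 / 21 := by nlinarith
  have hP : ∀ σ, 0 < (p σ : ℚ) + (2 - 2 * u - 2 * B) := fun σ => by
    rw [hf]; push_cast
    linarith [Int.lt_floor_add_one (u + σ + B), Int.lt_floor_add_one (u - σ + B)]
  have h' : ((⌊u - τ - f + B⌋ + (⌊2 * u + f + B⌋ + (L.map p).sum) : ℤ) : ℚ) + 1 ≤
      ((⌊1 - 10 * g - τ⌋ + y : ℤ) : ℚ) := by exact_mod_cast h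
  push_cast [-Int.cast_list_sum] at h'
  have a1 := Int.lt_floor_add_one (u - τ - f + B)
  have a2 := Int.lt_floor_add_one (2 * u + f + B)
  have a3 := Int.lt_floor_add_one (u + B)
  have a4 := Int.floor_le (1 - 10 * g - τ)
  obtain ⟨a, ha⟩ : ∃ a, a = ⌊u + B⌋ := ⟨_, rfl⟩
  rw [← ha] at a3
  have hy : (2 * L.length + 3) * u = y := by rw [hu]; linear_combination y * hg
  have key : ((L.map p).sum : ℤ) + L.length * (2 - 2 * u - 2 * B) <
      (2 * L.length + 2) * (3 * g + η) - 10 * g := by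
    rw [hB] at *; nlinarith
  have s1 := (h0.map fun σ => (p σ : ℚ) + (2 - 2 * u - 2 * B)).sum_le_sum
    fun x hx => by obtain ⟨σ, -, rfl⟩ := List.mem_map.1 hx; exact (hP σ).le
  rw [sum_shift L] at s1
  have f0 : (p 0 : ℚ) = 2 * a := by rw [hf, ha]; simp; ring
  simp only [List.map_cons, List.map_nil, List.sum_cons, List.sum_nil, f0] at s1
  have s2 : a + 1 - u - B < 1 / 2 := by nlinarith
  have k0 : ∀ σ, 0 ≤ (p σ : ℚ) + -(2 * a) := fun σ => by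
    have : -1 < p σ - 2 * a := by
      have : (-1 : ℚ) < p σ - 2 * a := by linarith [hP σ]
      exact_mod_cast this
    have : (0 : ℚ) ≤ ((p σ - 2 * a : ℤ) : ℚ) := by exact_mod_cast (by omega : 0 ≤ p σ - 2 * a)
    push_cast at this; linarith
  have s3 : ∀ σ ∈ L, (p σ : ℚ) + -(2 * a) ≤ ((L.map p).sum : ℤ) + L.length * -(2 * (a : ℚ)) :=
    fun σ hσ => by
      rw [← sum_shift]
      exact List.single_le_sum
        (fun x hx => by obtain ⟨σ, -, rfl⟩ := List.mem_map.1 hx; exact k0 σ) _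
        (List.mem_map_of_mem hσ)
  obtain ⟨j, hj⟩ : ∃ j : ℤ, j = a * (2 * L.length + 3) + 1 - y := ⟨_, rfl⟩
  have hφ : a + 1 - u - B = η + 3 * g * j := by
    rw [hj, hB, hu]; push_cast; linear_combination -a * hg
  have s4 := s3 0 (h0.subset List.mem_cons_self)
  have j0 : j = 0 := by
    have b1 : (-1 : ℚ) < j := by nlinarith
    have b2 : (j : ℚ) < 1 := by
      by_contra hh
      have : η + 3 * g ≤ a + 1 - u - B := by nlinarith
      nlinarith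
    have b1' : -1 < j := by exact_mod_cast b1
    have b2' : j < 1 := by exact_mod_cast b2
    omega
  rw [j0, Int.cast_zero, mul_zero, add_zero] at hφ
  have k1 : ((L.map p).sum : ℤ) + L.length * -(2 * (a : ℚ)) < 1 := by
    have : (2 - 2 * u - 2 * B) = -(2 * a) + 2 * η := by linarith
    rw [this] at key; linarith
  have hn : ∀ σ ∈ L, Near η σ := fun σ hσ => ⟨⌊u + σ + B⌋ - a, by
    have c1 : p σ - 2 * a < 1 := by
      have : (p σ : ℚ) - 2 * a < 1 := by linarith [s3 σ hσ]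
      exact_mod_cast this
    have c2 : ((p σ - 2 * a : ℤ) : ℚ) ≤ 0 := by exact_mod_cast (by omega : p σ - 2 * a ≤ 0)
    rw [hf] at c2
    push_cast at c2 ⊢
    rw [abs_lt]
    constructor <;>
      linarith [Int.lt_floor_add_one (u + σ + B), Int.lt_floor_add_one (u - σ + B)]⟩
  refine ⟨hn, ?_⟩
  rw [show u = a + 3 * g by linarith, hh_std (by linarith) (by linarith) hn]
  congr 1; linarith

theorem int_zero {x : ℚ} {k : ℤ} (h : x = k) (h1 : -1 < x) (h2 : x < 1) : x = 0 := by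
  rw [h] at h1 h2 ⊢
  have a : -1 < k := by exact_mod_cast h1
  have b : k < 1 := by exact_mod_cast h2
  exact_mod_cast (by omega : k = 0)

theorem decode {M m : ℕ} {g η : ℚ} {θ : ℕ → ℚ} {φ : F3} {n : ℕ} (hφ : Bd n φ) (hn : n ≤ m)
    (hg : M * (3 * g) = 1) (hM : 43 ≤ M) (η2 : η ≤ 15 / 8 * g)
    (h1 : ∀ σ ∈ forms (3 * M) m θ φ, Near η σ) : ∃ (t : ℕ → ℚ) (k : ℕ → ℤ),
      (∀ j, θ j = t j + k j) ∧ (∀ j ≤ m, ∃ z : ℚ, (z = -1 ∨ z = 0 ∨ z = 1) ∧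
        |t j - z * g| < g / 64) ∧ (g / 2 < t 0 → Sat3 φ) := by
  obtain ⟨-, h3, h4, h5⟩ := forall_forms.1 h1
  have hM' : (43 : ℚ) ≤ M := by exact_mod_cast hM
  have g0 : 0 < g := by nlinarith
  have g1 : g ≤ 1 / 129 := by nlinarith
  choose! k hk using h3
  choose! q hq using h4
  obtain ⟨t, ht⟩ : ∃ t : ℕ → ℚ, ∀ j, θ j = t j + k j := ⟨fun j => θ j - k j, fun _ => by ring⟩
  have b2 : ∀ j ≤ m, ∃ z : ℚ, (z = -1 ∨ z = 0 ∨ z = 1) ∧ |t j - z * g| < g / 64 := fun j hj => by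
    have a := hq j hj
    have b := hk j hj
    obtain ⟨z, hz⟩ : ∃ z : ℤ, z = q j - 3 * M * k j := ⟨_, rfl⟩
    have e : t j - z * g = g * (((3 * M : ℕ) : ℚ) * θ j - q j) := by
      rw [ht, hz]; push_cast; linear_combination -t j * hg
    have c : |t j - z * g| < g / 64 := by
      rw [e, abs_mul, abs_of_pos g0]; nlinarith
    refine ⟨z, ?_, c⟩
    rw [ht, add_sub_cancel_right, abs_lt] at b
    rw [abs_lt] at c
    have d1 : (z : ℚ) < 2 := by nlinarith [c.1, b.2]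
    have d2 : (-2 : ℚ) < z := by nlinarith [c.2, b.1]
    have d1' : z < 2 := by exact_mod_cast d1
    have d2' : -2 < z := by exact_mod_cast d2
    rcases (by omega : z = -1 ∨ z = 0 ∨ z = 1) with rfl | rfl | rfl <;> simp
  refine ⟨t, k, ht, b2, fun h0 => ⟨fun v => decide (g / 2 < t (v + 1)), fun C hC => ?_⟩⟩
  have b3 : g - g / 64 < t 0 ∧ t 0 < g + g / 64 := by
    obtain ⟨z, rfl | rfl | rfl, hz⟩ := b2 0 (Nat.zero_le _) <;> rw [abs_lt] at hz <;>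
      constructor <;> linarith [hz.1, hz.2]
  have el : ∀ l, ∃ z : ℤ, lv θ l = lv t l + z := fun l =>
    ⟨lv k l, by unfold lv; cases l.2 <;> simp [ht]; ring⟩
  have b4 : ∀ l : Lit, l.1 < n → -(2 * g) < lv t l ∧
      (decide (g / 2 < t (l.1 + 1)) ≠ l.2 → lv t l < g / 32) := fun l hl => by
    obtain ⟨z, hz, d⟩ := b2 (l.1 + 1) (by omega)
    rw [abs_lt] at d
    unfold lv
    cases l.2
    · simp only [cond_false, ne_eq, Bool.not_eq_false, decide_eq_true_eq]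
      rcases hz with rfl | rfl | rfl <;>
        exact ⟨by linarith [d.2, b3.1], fun hh => by linarith [d.1, d.2, b3.2]⟩
    · simp only [cond_true, ne_eq, decide_eq_true_eq, not_lt]
      rcases hz with rfl | rfl | rfl <;>
        exact ⟨by linarith [d.1], fun hh => by linarith [d.1, d.2]⟩
  obtain ⟨w, hw⟩ := h5 C hC
  obtain ⟨z1, e1⟩ := el C.1
  obtain ⟨z2, e2⟩ := el C.2.1
  obtain ⟨z3, e3⟩ := el C.2.2
  obtain ⟨v1, v2, v3⟩ := hφ C hC
  by_contra hh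
  push Not at hh
  obtain ⟨c1, d1⟩ := b4 _ v1
  obtain ⟨c2, d2⟩ := b4 _ v2
  obtain ⟨c3, d3⟩ := b4 _ v3
  have d1 := d1 hh.1
  have d2 := d2 hh.2.1
  have d3 := d3 hh.2.2
  rw [e1, e2, e3, ht, abs_lt] at hw
  have := int_zero (x := w - z1 - z2 - z3 + 2 * k 0) (k := w - z1 - z2 - z3 + 2 * k 0)
    (by push_cast; rfl) (by linarith [hw.2, b3.2]) (by linarith [hw.1, b3.1])
  linarith [hw.1, b3.1]

/-- The two kinds of prefixes. -/
def Ty (g s τ ψ : ℚ) (H : ℤ) : Prop := ⌊1 - 10 * g - τ⌋ ≤ H ∨ (⌊-τ - g⌋ ≤ H ∧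
  ∃ k : ℤ, (s < ψ - k ∧ ψ - k < 2 * g) ∨ (-s < ψ - k ∧ ψ - k < -(g / 16)))

theorem ty_std {g η s τ ψ t0 t1 : ℚ} {k0 k1 : ℤ} (g0 : 0 < g) (g1 : g ≤ 1 / 129)
    (h0 : ∃ z : ℚ, (z = -1 ∨ z = 0 ∨ z = 1) ∧ |t0 - z * g| < g / 64)
    (h1 : ∃ z : ℚ, (z = -1 ∨ z = 0 ∨ z = 1) ∧ |t1 - z * g| < g / 64)
    (hl : (η = 15 / 8 * g ∧ s = g ∧ t0 ≤ g / 2) ∨ (η = 11 / 8 * g ∧ s = g / 2))
    (n0 : Near η (2 * (t0 + k0) - ψ)) (n1 : Near η (2 * (t1 + k1) - ψ)) (n2 : Near η ψ) :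
    Ty g s τ ψ (1 + ⌊-τ - (2 * (t1 + k1) - (t0 + k0) - ψ) - η⌋ +
      ⌊2 * (t1 + k1) - (t0 + k0) - ψ + (3 * g - η)⌋) := by
  obtain ⟨z0, a0, b0⟩ := h0
  obtain ⟨z1, a1, b1⟩ := h1
  obtain ⟨q0, n0⟩ := n0
  obtain ⟨q1, n1⟩ := n1
  obtain ⟨k, n2⟩ := n2
  rw [abs_lt] at b0 b1 n0 n1 n2
  have η2 : η ≤ 15 / 8 * g := by rcases hl with h | h <;> linarith [h.1]
  have c0 : -(2 * g) < t0 ∧ t0 < 2 * g := by
    rcases a0 with rfl | rfl | rfl <;> constructor <;> linarith [b0.1, b0.2]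
  have c1 : -(2 * g) < t1 ∧ t1 < 2 * g := by
    rcases a1 with rfl | rfl | rfl <;> constructor <;> linarith [b1.1, b1.2]
  have d0 := int_zero (x := q0 - 2 * k0 + k) (k := q0 - 2 * k0 + k) (by push_cast; rfl)
    (by linarith [n0.2, n2.2, c0.1]) (by linarith [n0.1, n2.1, c0.2])
  have d1 := int_zero (x := q1 - 2 * k1 + k) (k := q1 - 2 * k1 + k) (by push_cast; rfl)
    (by linarith [n1.2, n2.2, c1.1]) (by linarith [n1.1, n2.1, c1.2])
  obtain ⟨f, hf⟩ : ∃ f, f = 2 * t1 - t0 - (ψ - k) := ⟨_, rfl⟩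
  rw [show -τ - (2 * (t1 + k1) - (t0 + k0) - ψ) - η = -τ - f - η - ((2 * k1 - k0 - k : ℤ) : ℚ) by
      rw [hf]; push_cast; ring,
    show 2 * (t1 + k1) - (t0 + k0) - ψ + (3 * g - η) =
      f + (3 * g - η) + ((2 * k1 - k0 - k : ℤ) : ℚ) by rw [hf]; push_cast; ring,
    Int.floor_sub_intCast, Int.floor_add_intCast]
  rcases le_or_gt 0 (f + (3 * g - η)) with h | h
  · left
    have e1 := Int.floor_nonneg.2 h
    have e2 : ⌊1 - 10 * g - τ⌋ ≤ ⌊-τ - f - η + 1⌋ :=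
      Int.floor_mono (by linarith [n2.1, c0.1, c1.2])
    rw [Int.floor_add_one] at e2
    omega
  · right
    have e1 : -1 ≤ ⌊f + (3 * g - η)⌋ := Int.le_floor.2 (by
      push_cast; linarith [n2.2, c0.2, c1.1])
    have e2 : ⌊-τ - g⌋ ≤ ⌊-τ - f - η⌋ := Int.floor_mono (by linarith)
    refine ⟨by omega, k, ?_⟩
    rcases hl with ⟨rfl, rfl, h3⟩ | ⟨rfl, rfl⟩ <;> rcases a0 with rfl | rfl | rfl <;>
      rcases a1 with rfl | rfl | rfl <;>
      first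
      | exact Or.inl ⟨by linarith [b0.1, b0.2, b1.1, b1.2], by linarith [n2.2]⟩
      | exact Or.inr ⟨by linarith [b0.1, b0.2, b1.1, b1.2],
          by linarith [b0.1, b0.2, b1.1, b1.2, n1.1]⟩
      | exfalso; linarith [b0.1, b0.2, b1.1, b1.2, n0.1, n0.2, n1.1, n1.2, n2.1, n2.2]

theorem ty_G {M : ℕ} {g s η ψ : ℚ} {H : ℤ} (hg : M * (3 * g) = 1) (hM : 43 ≤ M)
    (η2 : η ≤ 2 * g) (s1 : g / 2 ≤ s) (s2 : s ≤ g) (h : Ty g s (M * ψ) ψ H) :
    0 ≤ ⌊M * ψ + (1 - 3 * g - η)⌋ + H := by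
  have hM' : (43 : ℚ) ≤ M := by exact_mod_cast hM
  have g0 : 0 < g := by nlinarith
  have g1 : g ≤ 1 / 129 := by nlinarith
  rcases h with h | ⟨h, k, h'⟩
  · have : (-1 : ℚ) < ⌊M * ψ + (1 - 3 * g - η)⌋ + ⌊1 - 10 * g - M * ψ⌋ := by
      linarith [Int.lt_floor_add_one (M * ψ + (1 - 3 * g - η)),
        Int.lt_floor_add_one (1 - 10 * g - M * ψ)]
    have : -1 < ⌊M * ψ + (1 - 3 * g - η)⌋ + ⌊1 - 10 * g - M * ψ⌋ := by exact_mod_cast this
    omega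
  · rcases h' with h' | h'
    · have a : M * k + 1 ≤ ⌊M * ψ + (1 - 3 * g - η)⌋ := Int.le_floor.2 (by push_cast; nlinarith)
      have b : -(M * k) - 1 ≤ ⌊-(M * ψ) - g⌋ := Int.le_floor.2 (by push_cast; nlinarith)
      omega
    · have a : M * k ≤ ⌊M * ψ + (1 - 3 * g - η)⌋ := Int.le_floor.2 (by push_cast; nlinarith)
      have b : -(M * k) ≤ ⌊-(M * ψ) - g⌋ := Int.le_floor.2 (by push_cast; nlinarith)
      omega

theorem ty_H {M : ℕ} {g s ψ χ : ℚ} {H K : ℤ} (hg : M * (3 * g) = 1) (hM : 43 ≤ M)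
    (s1 : g / 2 ≤ s) (s2 : s ≤ g) (h : Ty g s (M * ψ) ψ H) (h' : Ty g s (M * χ) χ K)
    (e : ψ + χ ≤ 0) : 0 ≤ H + K := by
  have hM' : (43 : ℚ) ≤ M := by exact_mod_cast hM
  have g0 : 0 < g := by nlinarith
  have g1 : g ≤ 1 / 129 := by nlinarith
  have mix : ∀ (ψ χ : ℚ) (k : ℤ), ψ + χ ≤ 0 →
      (s < χ - k ∧ χ - k < 2 * g) ∨ (-s < χ - k ∧ χ - k < -(g / 16)) →
      0 ≤ ⌊1 - 10 * g - M * ψ⌋ + ⌊-(M * χ) - g⌋ := by
    intro ψ χ k e h'
    rcases h' with h' | h'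
    · have a : M * k + 1 ≤ ⌊1 - 10 * g - M * ψ⌋ := Int.le_floor.2 (by push_cast; nlinarith)
      have b : -(M * k) - 1 ≤ ⌊-(M * χ) - g⌋ := Int.le_floor.2 (by push_cast; nlinarith)
      omega
    · have a : M * k ≤ ⌊1 - 10 * g - M * ψ⌋ := Int.le_floor.2 (by push_cast; nlinarith)
      have b : -(M * k) ≤ ⌊-(M * χ) - g⌋ := Int.le_floor.2 (by push_cast; nlinarith)
      omega
  rcases h with h | ⟨h, k, h1⟩ <;> rcases h' with h' | ⟨h', j, h2⟩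
  · have : (-1 : ℚ) < ⌊1 - 10 * g - M * ψ⌋ + ⌊1 - 10 * g - M * χ⌋ := by
      nlinarith [Int.lt_floor_add_one (1 - 10 * g - M * χ),
        Int.lt_floor_add_one (1 - 10 * g - M * ψ)]
    have : -1 < ⌊1 - 10 * g - M * ψ⌋ + ⌊1 - 10 * g - M * χ⌋ := by exact_mod_cast this
    omega
  · have := mix ψ χ j e h2; omega
  · have := mix χ ψ k (by linarith) h1; omega
  · have a : -(M * k) - 1 ≤ ⌊-(M * ψ) - g⌋ :=
      Int.le_floor.2 (by push_cast; rcases h1 with h1 | h1 <;> nlinarith)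
    have b : -(M * j) - 1 ≤ ⌊-(M * χ) - g⌋ :=
      Int.le_floor.2 (by push_cast; rcases h2 with h2 | h2 <;> nlinarith)
    have c : k + j < 1 := by
      have : (k + j : ℚ) < 1 := by
        rcases h1 with h1 | h1 <;> rcases h2 with h2 | h2 <;> linarith [h1.1, h2.1]
      exact_mod_cast this
    rcases (by omega : k + j ≤ -1 ∨ j = -k) with c | rfl
    · have : (43 : ℤ) ≤ M := by exact_mod_cast hM
      nlinarith
    · push_cast at h2
      have h1 := h1.resolve_left fun h1 => by rcases h2 with h2 | h2 <;> linarith [h1.1, h2.1]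
      have h2 := h2.resolve_left fun h2 => by linarith [h1.1, h2.1]
      have a : -(M * k) ≤ ⌊-(M * ψ) - g⌋ := Int.le_floor.2 (by push_cast; nlinarith)
      have b : M * k ≤ ⌊-(M * χ) - g⌋ := Int.le_floor.2 (by push_cast; nlinarith)
      omega

end Pool.Agent.H38.Jit
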