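import Pool.Agent.H38.Jit.Q2

/-!
The two-level instance: general facts.
-/

set_option autoImplicit false

namespace Pool.Agent.H38.Jit

open Pool.Agent.H38.NP

def dsN (Q : ℤ) (fs : List ℤ) : List ℕ := (fs.flatMap fun s => [Q + s, Q - s]).map Int.toNat

def demN (M : ℕ) (Q q : ℤ) (fs : List ℤ) : List ℕ :=
  (Q - M - q).toNat :: M :: (2 * Q + q).toNat :: dsN Q fs

structure Ok (M : ℕ) (Q q : ℤ) (fs : List ℤ) (g : ℚ) : Prop where
  hM : M = 2 * fs.length + 3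
  h9 : 43 ≤ M
  hg : M * (3 * g) = 1
  hQ : 0 < Q
  hq : 12 * M * (M + |q|) ≤ Q
  hs : ∀ s ∈ fs, 12 * M * |s| ≤ Q

section
variable {M : ℕ} {Q q : ℤ} {fs : List ℤ} {g : ℚ} (h : Ok M Q q fs g)
include h

theorem Ok.near : ∀ w ∈ (Q - M - q).toNat :: dsN Q fs, ∃ s : ℤ, (w : ℤ) = Q + s ∧ 12 * M * |s| ≤ Q := by
  have hM : (43 : ℤ) ≤ M := by exact_mod_cast h.h9
  have k : ∀ s : ℤ, 12 * M * |s| ≤ Q → ((Q + s).toNat : ℤ) = Q + s := fun s hs =>
    Int.toNat_of_nonneg (by nlinarith [neg_abs_le s, abs_nonneg s])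
  simp only [dsN, List.forall_mem_cons, List.forall_mem_map, List.forall_mem_flatMap,
    List.not_mem_nil, IsEmpty.forall_iff, implies_true, and_true]
  refine ⟨?_, fun s hs => ⟨⟨s, k s (h.hs s hs), h.hs s hs⟩, ?_⟩⟩
  · have : 12 * M * |-(M + q)| ≤ Q := le_trans (mul_le_mul_of_nonneg_left (by
      rw [abs_neg]; exact (abs_add_le _ _).trans (by simp)) (by positivity)) h.hq
    exact ⟨-(M + q), by rw [← k _ this]; congr 2; ring, this⟩
  · have : 12 * M * |-s| ≤ Q := by rw [abs_neg]; exact h.hs s hs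
    exact ⟨-s, k _ this, this⟩

theorem Ok.rho : (((2 * Q + q).toNat : ℕ) : ℤ) = 2 * Q + q := by
  have hM : (43 : ℤ) ≤ M := by exact_mod_cast h.h9
  exact Int.toNat_of_nonneg (by nlinarith [neg_abs_le q, abs_nonneg q, h.hq])

theorem Ok.uu : (((Q - M - q).toNat : ℕ) : ℤ) = Q - M - q := by
  have hM : (43 : ℤ) ≤ M := by exact_mod_cast h.h9
  exact Int.toNat_of_nonneg (by nlinarith [le_abs_self q, abs_nonneg q, h.hq])

theorem Ok.sum_ds (f : ℤ → ℤ) : ((dsN Q fs).map fun w : ℕ => f w).sum =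
    (fs.map fun s => f (Q + s) + f (Q - s)).sum := by
  have hM : (43 : ℤ) ≤ M := by exact_mod_cast h.h9
  have hs := h.hs
  clear h
  induction fs with
  | nil => simp [dsN]
  | cons s fs ih =>
    have := hs s List.mem_cons_self
    have a : ((Q + s).toNat : ℤ) = Q + s :=
      Int.toNat_of_nonneg (by nlinarith [neg_abs_le s, abs_nonneg s])
    have b : ((Q - s).toNat : ℤ) = Q - s :=
      Int.toNat_of_nonneg (by nlinarith [le_abs_self s, abs_nonneg s])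
    rw [List.map_cons, List.sum_cons, ← ih fun s hs' => hs s (List.mem_cons_of_mem _ hs')]
    simp only [dsN, List.flatMap_cons, List.map_append, List.sum_append, List.map_cons,
      List.map_nil, List.sum_cons, List.sum_nil, a, b, add_zero]

theorem Ok.sum : (((demN M Q q fs).sum : ℕ) : ℤ) = M * Q := by
  have := h.sum_ds id
  simp only [id] at this
  rw [demN, Nat.cast_list_sum]
  simp only [List.map_cons, List.sum_cons, h.rho, h.uu]
  rw [this]
  have := h.hM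
  simp only [add_add_sub_cancel, List.map_const', List.sum_replicate, nsmul_eq_mul]
  rw [show (M : ℤ) * Q = (2 * fs.length + 3) * Q by rw [this]; push_cast; rfl]; ring

theorem Ok.pos : ∀ w ∈ demN M Q q fs, 0 < w := by
  have hM : (43 : ℤ) ≤ M := by exact_mod_cast h.h9
  have k : ∀ w ∈ (Q - M - q).toNat :: dsN Q fs, 0 < w := fun w hw => by
    obtain ⟨s, a, b⟩ := h.near w hw
    have : (0 : ℤ) < w := by nlinarith [neg_abs_le s, abs_nonneg s, h.hQ]
    omega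
  simp only [demN, List.forall_mem_cons] at k ⊢
  have : 0 < 2 * Q + q := by nlinarith [neg_abs_le q, abs_nonneg q, h.hq, h.hQ]
  exact ⟨k.1, by omega, by omega, k.2⟩

theorem Ok.fl_eq (B : ℚ) (y : ℤ) (w : ℕ) (a s : ℤ) (e : (w : ℤ) = a * Q + s) :
    fl B (demN M Q q fs).sum y w = ⌊a * (3 * g * y) + y / (M * Q) * s + B⌋ := by
  have e1 : (((demN M Q q fs).sum : ℕ) : ℚ) = M * Q := by
    rw [← Int.cast_natCast, h.sum]; push_cast; rfl
  have e2 : (w : ℚ) = a * Q + s := by exact_mod_cast e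
  have hM : (43 : ℚ) ≤ M := by exact_mod_cast h.h9
  have hQ : (0 : ℚ) < Q := by exact_mod_cast h.hQ
  have e3 : 3 * g = 1 / M := by field_simp; linarith [h.hg]
  rw [fl, e1, e2, e3]; congr 2; field_simp

theorem Ok.fl_z (B : ℚ) (y : ℤ) :
    fl B (demN M Q q fs).sum y M = ⌊M * (y / (M * Q)) + B⌋ := by
  rw [h.fl_eq B y M 0 M (by simp)]; congr 2; push_cast; ring

theorem Ok.fl_ds (B : ℚ) (y : ℤ) : ((dsN Q fs).map (fl B (demN M Q q fs).sum y)).sum =
    ((fs.map fun s : ℤ => y / (M * Q) * (s : ℚ)).map fun σ =>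
      ⌊3 * g * y + σ + B⌋ + ⌊3 * g * y - σ + B⌋).sum := by
  have := h.sum_ds fun w => ⌊3 * g * y + y / (M * Q) * ((w - Q : ℤ) : ℚ) + B⌋
  rw [List.map_congr_left (g := fun w : ℕ => ⌊3 * g * y + y / (M * Q) * ((w - Q : ℤ) : ℚ) + B⌋)
    fun w _ => by rw [h.fl_eq B y w 1 (w - Q) (by ring)]; simp, this, List.map_map]
  simp [Function.comp_def, sub_eq_add_neg]

theorem Ok.fl_sum (B : ℚ) (y : ℤ) :
    (((Q - M - q).toNat :: (2 * Q + q).toNat :: dsN Q fs).map (fl B (demN M Q q fs).sum y)).sum =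
    HH B (3 * g * y) (M * (y / (M * Q))) (y / (M * Q) * q)
      (fs.map fun s : ℤ => y / (M * Q) * (s : ℚ)) := by
  rw [List.map_cons, List.sum_cons, List.map_cons, List.sum_cons, h.fl_ds, HH,
    h.fl_eq B y _ 1 (-M - q) (by rw [h.uu]; ring), h.fl_eq B y _ 2 q h.rho]
  congr 2
  push_cast; ring

theorem Ok.feas {η s : ℚ} (hl : (η = 15 / 8 * g ∧ s = g) ∨ (η = 11 / 8 * g ∧ s = g / 2))
    (hT : ∀ y : ℤ, Ty g s (M * (y / (M * Q))) (y / (M * Q)) (HH (1 - 3 * g - η) (3 * g * y)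
      (M * (y / (M * Q))) (y / (M * Q) * q) (fs.map fun s : ℤ => y / (M * Q) * (s : ℚ)) - y)) :
    Jit (demN M Q q fs) (1 - 3 * g - η) := by
  have hM : (43 : ℚ) ≤ M := by exact_mod_cast h.h9
  have hQ : (0 : ℚ) < Q := by exact_mod_cast h.hQ
  have hg := h.hg
  have g0 : 0 < g := by nlinarith
  have g1 : g ≤ 1 / 129 := by nlinarith
  have e1 : (((demN M Q q fs).sum : ℕ) : ℚ) = M * Q := by
    rw [← Int.cast_natCast, h.sum]; push_cast; rfl
  have s1 : g / 2 ≤ s ∧ s ≤ g ∧ 11 / 8 * g ≤ η ∧ η ≤ 15 / 8 * g := by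
    rcases hl with ⟨rfl, rfl⟩ | ⟨rfl, rfl⟩ <;> refine ⟨?_, ?_, ?_, ?_⟩ <;> linarith
  obtain ⟨l, l1, l2, l3⟩ : ∃ l : ℕ, (l : ℚ) ≤ M ∧ l * (3 * g) + g / 4 ≤ 1 - 6 * g - 2 * η ∧
      1 - 6 * g - 2 * η < (l + 1) * (3 * g) - g / 4 := by
    have := h.h9
    rcases hl with ⟨rfl, -⟩ | ⟨rfl, -⟩
    · refine ⟨M - 4, ?_⟩
      rw [Nat.cast_sub (by omega)]; push_cast; refine ⟨?_, ?_, ?_⟩ <;> linarith
    · refine ⟨M - 3, ?_⟩
      rw [Nat.cast_sub (by omega)]; push_cast; refine ⟨?_, ?_, ?_⟩ <;> linarith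
  have l0 : (0 : ℚ) ≤ l := by positivity
  have k : ∀ (w : ℕ) (a s : ℤ), (w : ℤ) = a * Q + s → 12 * M * |s| ≤ Q →
      |M * ((w : ℚ) / (M * Q) - a * (3 * g))| ≤ g / 4 := fun w a s e hs => by
    have e2 : (w : ℚ) = a * Q + s := by exact_mod_cast e
    have hs' : 12 * M * |(s : ℚ)| ≤ Q := by exact_mod_cast hs
    have e3 : g = 1 / (3 * M) := by field_simp; linarith
    have : M * ((w : ℚ) / (M * Q) - a * (3 * g)) = s / Q := by rw [e2, e3]; field_simp; ring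
    rw [this, abs_div, abs_of_pos hQ, e3, div_le_iff₀ hQ]
    rw [show 1 / (3 * (M : ℚ)) / 4 * Q = Q / (12 * M) by field_simp; ring,
      le_div_iff₀ (by positivity)]
    linarith
  have k1 : ∀ x : ℚ, |M * x| ≤ g / 4 → l * x ≤ g / 4 ∧ -(g / 4) ≤ (l + 1) * x := fun x hx => by
    rw [abs_mul, abs_of_nonneg (by positivity : (0 : ℚ) ≤ M)] at hx
    have : (l : ℚ) + 1 ≤ M := by nlinarith
    constructor <;> nlinarith [le_abs_self x, neg_abs_le x, abs_nonneg x]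
  have hq : 12 * M * |q| ≤ Q ∧ 12 * M * |(M : ℤ)| ≤ Q := by
    have := h.hq
    rw [Nat.abs_cast]
    constructor <;> nlinarith [abs_nonneg q]
  refine suff2 h.pos (by linarith) (by linarith) l _ rfl (fun w hw => ?_) (fun w hw => ?_)
    (fun y => ?_) fun x y hxy => ?_
  · change _ * (_ / (((demN M Q q fs).sum : ℕ) : ℚ)) ≤ _
    rw [e1]
    rcases (by simpa only [List.mem_cons, or_left_comm] using hw :
      w = M ∨ w = (Q - M - q).toNat ∨ w ∈ dsN Q fs) with rfl | hw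
    · have := (k1 _ (k w 0 w (by simp) hq.2)).1
      push_cast at this; nlinarith
    · obtain ⟨s, a, b⟩ := h.near w (List.mem_cons.2 hw)
      have := (k1 _ (k w 1 s (by simpa) b)).1
      push_cast at this; linarith
  · change _ < _ * (_ / (((demN M Q q fs).sum : ℕ) : ℚ))
    rw [e1]
    rcases (by simpa only [List.mem_cons, or_left_comm] using hw :
      w = (2 * Q + q).toNat ∨ w = (Q - M - q).toNat ∨ w ∈ dsN Q fs) with rfl | hw
    · have := (k1 _ (k _ 2 q h.rho hq.1)).2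
      push_cast at this; nlinarith
    · obtain ⟨s, a, b⟩ := h.near w (List.mem_cons.2 hw)
      have := (k1 _ (k w 1 s (by simpa) b)).2
      push_cast at this; linarith
  · change _ ≤ fl _ (demN M Q q fs).sum _ _ + (List.map (fl _ (demN M Q q fs).sum _) _).sum
    rw [h.fl_z, h.fl_sum]
    have := ty_G (η := η) hg h.h9 (by linarith) s1.1 s1.2.1 (hT y)
    omega
  · change _ ≤ (List.map (fl _ (demN M Q q fs).sum _) _).sum +
      (List.map (fl _ (demN M Q q fs).sum _) _).sum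
    rw [h.fl_sum, h.fl_sum]
    have := ty_H hg h.h9 s1.1 s1.2.1 (hT x) (hT (-y)) (by
      rw [← add_div]
      exact div_nonpos_of_nonpos_of_nonneg (by exact_mod_cast (by omega : x + -y ≤ 0))
        (by positivity))
    omega

theorem Ok.small {s : ℤ} (hs : 12 * M * |s| ≤ Q) : |1 / (M * Q) * (s : ℚ)| ≤ g / 64 := by
  have hM : (43 : ℚ) ≤ M := by exact_mod_cast h.h9
  have hQ : (0 : ℚ) < Q := by exact_mod_cast h.hQ
  have hs' : 12 * M * |(s : ℚ)| ≤ Q := by exact_mod_cast hs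
  have e3 : g = 1 / (3 * M) := by field_simp; linarith [h.hg]
  rw [abs_mul, abs_of_pos (by positivity), e3, div_mul_eq_mul_div, div_div,
    div_le_div_iff₀ (by positivity) (by positivity)]
  nlinarith [abs_nonneg (s : ℚ), mul_le_mul_of_nonneg_left hs' (by positivity : (0 : ℚ) ≤ M)]

theorem Ok.mem_ds : ∀ w ∈ dsN Q fs, ∃ s ∈ fs, (w : ℤ) = 1 * Q + s ∨ (w : ℤ) = 1 * Q + -s := by
  have hM : (43 : ℤ) ≤ M := by exact_mod_cast h.h9
  simp only [dsN, List.forall_mem_cons, List.forall_mem_map, List.forall_mem_flatMap,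
    List.not_mem_nil, IsEmpty.forall_iff, implies_true, and_true, one_mul]
  intro s hs
  have := h.hs s hs
  exact ⟨⟨s, hs, Or.inl (Int.toNat_of_nonneg (by nlinarith [neg_abs_le s, abs_nonneg s]))⟩,
    s, hs, Or.inr (Int.toNat_of_nonneg (by nlinarith [le_abs_self s, abs_nonneg s]))⟩

variable {Y J : ℤ} (h1 : ∀ s ∈ fs, Near (21 / 16 * g) ((M * Y : ℤ) / (M * Q) * (s : ℚ)))
  (h2 : |(M * Y : ℤ) / (M * Q) * (q : ℚ) - J - 5 / 4 * g| ≤ g / 32)
include h1 h2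

theorem Ok.letA : ∀ w ∈ (2 * Q + q).toNat :: dsN Q fs,
    fl (1 - 3 * g - 15 / 8 * g) (demN M Q q fs).sum (M * Y) w +
      fl (1 - 3 * g - 15 / 8 * g) (demN M Q q fs).sum (-(M * Y - 1)) w ≤ 0 := by
  have hM : (43 : ℚ) ≤ M := by exact_mod_cast h.h9
  have hg := h.hg
  have g0 : 0 < g := by nlinarith
  have g1 : g ≤ 1 / 129 := by nlinarith
  have e1 : 3 * g * ((M * Y : ℤ) : ℚ) = Y := by push_cast; linear_combination Y * hg
  have e2 : 3 * g * ((-(M * Y - 1) : ℤ) : ℚ) = -Y + 3 * g := by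
    push_cast; linear_combination -Y * hg
  have e3 : ∀ s : ℚ, ((-(M * Y - 1) : ℤ) : ℚ) / (M * Q) * s =
      -((M * Y : ℤ) / (M * Q) * s) + 1 / (M * Q) * s := fun s => by push_cast; ring
  have key : ∀ (w : ℕ) (a s k : ℤ), (w : ℤ) = a * Q + s → 12 * M * |s| ≤ Q →
      (M * Y : ℤ) / (M * Q) * (s : ℚ) - k < 39 / 8 * g →
      a * (3 * g) - 39 / 8 * g + g / 64 < (M * Y : ℤ) / (M * Q) * (s : ℚ) - k →
      fl (1 - 3 * g - 15 / 8 * g) (demN M Q q fs).sum (M * Y) w +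
      fl (1 - 3 * g - 15 / 8 * g) (demN M Q q fs).sum (-(M * Y - 1)) w ≤ 0 := by
    intro w a s k e hs b1 b2
    have c := abs_le.1 (h.small hs)
    rw [h.fl_eq _ _ w a s e, h.fl_eq _ _ w a s e, e1, e2, e3]
    have d1 : ⌊(a : ℚ) * Y + (M * Y : ℤ) / (M * Q) * (s : ℚ) + (1 - 3 * g - 15 / 8 * g)⌋ <
        a * Y + k + 1 := Int.floor_lt.2 (by push_cast at *; linarith)
    have d2 : ⌊(a : ℚ) * (-Y + 3 * g) + (-((M * Y : ℤ) / (M * Q) * (s : ℚ)) + 1 / (M * Q) * s) +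
        (1 - 3 * g - 15 / 8 * g)⌋ < -(a * Y) - k + 1 :=
      Int.floor_lt.2 (by push_cast at *; linarith [c.2])
    omega
  rw [List.forall_mem_cons]
  refine ⟨?_, fun w hw => ?_⟩
  · rw [abs_le] at h2
    exact key _ 2 q J h.rho (by have := h.hq; nlinarith [abs_nonneg q])
      (by linarith [h2.2]) (by push_cast at *; linarith [h2.1])
  · obtain ⟨s, hs, e⟩ := h.mem_ds w hw
    obtain ⟨k, hk⟩ := h1 s hs
    rw [abs_lt] at hk
    rcases e with e | e
    · exact key w 1 s k e (h.hs s hs) (by linarith [hk.2]) (by push_cast at *; linarith [hk.1])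
    · exact key w 1 (-s) (-k) e (by rw [abs_neg]; exact h.hs s hs)
        (by push_cast at *; linarith [hk.1]) (by push_cast at *; linarith [hk.2])

theorem Ok.letB (h3 : M * ((M * Y : ℤ) / (M * Q) : ℚ) ≤ 1 / 2) :
    M * Y - 1 + fl (1 - 3 * g - 11 / 8 * g) (demN M Q q fs).sum (-(M * Y - 1)) (Q - M - q).toNat +
      (((2 * Q + q).toNat :: dsN Q fs).map
        (fl (1 - 3 * g - 11 / 8 * g) (demN M Q q fs).sum (-(M * Y)))).sum ≤ 0 := by
  have hM : (43 : ℚ) ≤ M := by exact_mod_cast h.h9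
  have hg := h.hg
  have g0 : 0 < g := by nlinarith
  have g1 : g ≤ 1 / 129 := by nlinarith
  have e1 : 3 * g * ((-(M * Y) : ℤ) : ℚ) = -Y := by push_cast; linear_combination -Y * hg
  have e2 : 3 * g * ((-(M * Y - 1) : ℤ) : ℚ) = -Y + 3 * g := by
    push_cast; linear_combination -Y * hg
  have e3 : ∀ s : ℚ, ((-(M * Y - 1) : ℤ) : ℚ) / (M * Q) * s =
      -((M * Y : ℤ) / (M * Q) * s) + 1 / (M * Q) * s := fun s => by push_cast; ring
  have e4 : ∀ s : ℚ, ((-(M * Y) : ℤ) : ℚ) / (M * Q) * s = -((M * Y : ℤ) / (M * Q) * s) :=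
    fun s => by push_cast; ring
  have c := abs_le.1 (h.small (s := -M - q) (le_trans (mul_le_mul_of_nonneg_left
    ((abs_sub _ _).trans (by simp)) (by positivity)) h.hq))
  rw [abs_le] at h2
  rw [List.map_cons, List.sum_cons, h.fl_ds, h.fl_eq _ _ _ 1 (-M - q) (by rw [h.uu]; ring),
    h.fl_eq _ _ _ 2 q h.rho, e1, e2, e3, e4, List.map_map]
  have d1 : ⌊((1 : ℤ) : ℚ) * (-Y + 3 * g) + (-((M * Y : ℤ) / (M * Q) * ((-M - q : ℤ) : ℚ)) +
      1 / (M * Q) * ((-M - q : ℤ) : ℚ)) + (1 - 3 * g - 11 / 8 * g)⌋ < -Y + J + 2 :=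
    Int.floor_lt.2 (by push_cast at *; linarith [c.2, h2.2])
  have d2 : ⌊((2 : ℤ) : ℚ) * -Y + -((M * Y : ℤ) / (M * Q) * (q : ℚ)) +
      (1 - 3 * g - 11 / 8 * g)⌋ < -(2 * Y) - J + 1 :=
    Int.floor_lt.2 (by push_cast at *; linarith [h2.1])
  have d3 := List.sum_le_card_nsmul (fs.map ((fun σ : ℚ => ⌊-Y + σ + (1 - 3 * g - 11 / 8 * g)⌋ +
      ⌊-Y - σ + (1 - 3 * g - 11 / 8 * g)⌋) ∘ fun s : ℤ => ((-(M * Y) : ℤ) : ℚ) / (M * Q) * (s : ℚ)))
    (-(2 * Y)) fun x hx => by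
      obtain ⟨s, hs, rfl⟩ := List.mem_map.1 hx
      obtain ⟨k, hk⟩ := h1 s hs
      rw [abs_lt] at hk
      simp only [Function.comp, e4]
      have a : ⌊-Y + -((M * Y : ℤ) / (M * Q) * (s : ℚ)) + (1 - 3 * g - 11 / 8 * g)⌋ < -Y - k + 1 :=
        Int.floor_lt.2 (by push_cast at *; linarith [hk.1])
      have b : ⌊-Y - -((M * Y : ℤ) / (M * Q) * (s : ℚ)) + (1 - 3 * g - 11 / 8 * g)⌋ < -Y + k + 1 :=
        Int.floor_lt.2 (by push_cast at *; linarith [hk.2])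
      omega
  rw [List.length_map, nsmul_eq_mul] at d3
  have : (M : ℤ) * Y = (2 * fs.length + 3) * Y := by rw [h.hM]; push_cast; rfl
  linarith

end

end Pool.Agent.H38.Jit
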