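import Pool.Agent.H38.Jit.Q3

/-!
The two-level instance of a 3-CNF formula.
-/

set_option autoImplicit false

namespace Pool.Agent.H38.Jit

open Pool.Agent.H38.NP Pool.Agent.H38.ER

def fs2 {R : Type} [Ring R] (N n : ℕ) (p : ℕ → R) (φ : F3) : List R :=
  0 :: 0 :: (2 * p 0 - p (n + 2)) :: (2 * p (n + 1) - p (n + 2)) :: p (n + 2) ::
    (List.replicate 20 0 ++ forms N (n + 1) p φ)

theorem fs2_len {R : Type} [Ring R] (N n : ℕ) (p : ℕ → R) (φ : F3) :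
    (fs2 N n p φ).length = 2 * n + 30 + φ.length := by simp [fs2, forms_len]; omega

theorem fs2_map (N m : ℕ) (p : ℕ → ℤ) (φ : F3) (c : ℚ) :
    (fs2 N m p φ).map (fun s : ℤ => c * s) = fs2 N m (fun j => c * p j) φ := by
  simp only [fs2, List.map_cons, List.map_append, forms_map, List.map_replicate]
  push_cast
  simp only [mul_zero, mul_sub, mul_left_comm c 2]

theorem forall_fs2 {R : Type} [Ring R] {N n : ℕ} {p : ℕ → R} {φ : F3} {P : R → Prop} :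
    (∀ s ∈ fs2 N n p φ, P s) ↔ P (2 * p 0 - p (n + 2)) ∧ P (2 * p (n + 1) - p (n + 2)) ∧
      P (p (n + 2)) ∧ ∀ s ∈ forms N (n + 1) p φ, P s := by
  simp only [fs2, List.forall_mem_cons, List.forall_mem_append, List.forall_mem_replicate]
  exact ⟨fun h => ⟨h.2.2.1, h.2.2.2.1, h.2.2.2.2.1, h.2.2.2.2.2.2⟩, fun h =>
    have := (forall_forms.1 h.2.2.2).1
    ⟨this, this, h.1, h.2.1, h.2.2.1, Or.inr this, h.2.2.2⟩⟩

theorem enc2 {M n : ℕ} {g : ℚ} {θ τ : ℕ → ℚ} {k : ℕ → ℤ} {φ : F3} {z : ℕ → Bool}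
    (hφ : Bd n φ) (hg : M * (3 * g) = 1) (hM : 43 ≤ M)
    (ha : (z 0 = true ∧ ∀ C ∈ φ, z (C.1.1 + 1) = C.1.2 ∨ z (C.2.1.1 + 1) = C.2.1.2 ∨
      z (C.2.2.1 + 1) = C.2.2.2) ∨ ∀ j ≤ n, z j = false)
    (hθ : ∀ j ≤ n + 1, θ j = k j + (z j).toNat * g + τ j)
    (hτ : ∀ j ≤ n + 1, 0 ≤ τ j ∧ τ j ≤ 3 / 16 * g ^ 2) :
    ∀ σ ∈ forms (3 * M) (n + 1) θ φ, Near (21 / 16 * g) σ := by
  have hM' : (43 : ℚ) ≤ M := by exact_mod_cast hM
  have g0 : 0 < g := by nlinarith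
  have g1 : g ≤ 1 / 129 := by nlinarith
  have e2 : g ^ 2 ≤ 1 / 129 * g := by nlinarith
  have t0 := hθ 0 (Nat.zero_le _)
  have u0 := hτ 0 (Nat.zero_le _)
  refine forall_forms.2 ⟨⟨0, by simpa⟩, fun j hj => ⟨k j, ?_⟩, fun j hj =>
    ⟨3 * M * k j + (z j).toNat, ?_⟩, fun C hC => ?_⟩
  · have := hτ j hj
    rw [hθ j hj, abs_lt]
    cases z j <;> simp <;> constructor <;> linarith [this.1, this.2]
  · have := hτ j hj
    have e : ((3 * M : ℕ) : ℚ) * θ j - ((3 * M * k j + (z j).toNat : ℤ) : ℚ) = 3 * M * τ j := by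
      rw [hθ j hj]; push_cast
      linear_combination ((z j).toNat : ℚ) * hg
    rw [e, abs_lt]
    constructor <;> nlinarith [this.1, this.2]
  · have el : ∀ l : Lit, l.1 < n → ∃ w : ℚ, lv θ l = lv k l + w ∧
        (z 0 = true → -(g / 64) ≤ w ∧ w ≤ g + g / 64 ∧ (z (l.1 + 1) = l.2 → g - g / 64 ≤ w)) ∧
        (z 0 = false → z (l.1 + 1) = false → -(g / 64) ≤ w ∧ w ≤ g / 64) := by
      intro l hl
      have c := hθ (l.1 + 1) (by omega)
      have d := hτ (l.1 + 1) (by omega)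
      refine ⟨lv θ l - lv k l, by ring, ?_⟩
      unfold lv
      rw [c, t0]
      cases l.2 <;> cases z (l.1 + 1) <;> cases z 0 <;> simp <;> refine ⟨?_, ?_⟩ <;>
        try refine ⟨?_, ?_⟩
      all_goals linarith [d.1, d.2, u0.1, u0.2]
    obtain ⟨v1, v2, v3⟩ := hφ C hC
    obtain ⟨w1, a1, b1, c1⟩ := el _ v1
    obtain ⟨w2, a2, b2, c2⟩ := el _ v2
    obtain ⟨w3, a3, b3, c3⟩ := el _ v3
    refine ⟨lv k C.1 + lv k C.2.1 + lv k C.2.2 - 2 * k 0, ?_⟩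
    rw [a1, a2, a3, t0, abs_lt]
    push_cast
    rcases ha with ⟨z0, ha⟩ | ha
    · obtain ⟨d1, e1, f1⟩ := b1 z0
      obtain ⟨d2, e2, f2⟩ := b2 z0
      obtain ⟨d3, e3, f3⟩ := b3 z0
      rw [z0, Bool.toNat_true, Nat.cast_one]
      refine ⟨?_, by linarith [u0.1]⟩
      rcases ha C hC with h | h | h
      · linarith [f1 h, u0.2]
      · linarith [f2 h, u0.2]
      · linarith [f3 h, u0.2]
    · have z0 := ha 0 (Nat.zero_le _)
      obtain ⟨d1, e1⟩ := c1 z0 (ha _ v1)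
      obtain ⟨d2, e2⟩ := c2 z0 (ha _ v2)
      obtain ⟨d3, e3⟩ := c3 z0 (ha _ v3)
      rw [z0, Bool.toNat_false, Nat.cast_zero]
      constructor <;> linarith [u0.1, u0.2]

def M2 (φ : F3) : ℕ := 2 * (2 * nv φ + 30 + φ.length) + 3
def pw2 (M k : ℕ) : ℤ := ((48 * (M * M) : ℕ) : ℤ) ^ k
def pp (M n j : ℕ) : ℤ := pw2 M (n + 2 - j)
def dm' (M n : ℕ) (φ : F3) : List ℕ := demN M (pw2 M (n + 3))
  (2 * pp M n (n + 1) - pp M n 0 - pp M n (n + 2)) (fs2 (3 * M) n (pp M n) φ)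
def ps' (M n : ℕ) : ℕ := (M * (16 * M * pw2 M (n + 1) + 12 * M * pw2 M (n + 2)) - 1).toNat

theorem ok2 {M n : ℕ} {φ : F3} {g : ℚ} (hM : M = 2 * (2 * n + 30 + φ.length) + 3)
    (hg : M * (3 * g) = 1) : Ok M (pw2 M (n + 3)) (2 * pp M n (n + 1) - pp M n 0 - pp M n (n + 2))
      (fs2 (3 * M) n (pp M n) φ) g := by
  have hM'' : (43 : ℤ) ≤ M := by exact_mod_cast (by omega : 43 ≤ M)
  have p0 : ∀ k, 0 < pw2 M k := fun k => pow_pos (by push_cast; nlinarith) _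
  have p1 : ∀ j, 0 < pp M n j ∧ pp M n j ≤ pw2 M (n + 2) := fun j =>
    ⟨p0 _, pow_le_pow_right₀ (by push_cast; nlinarith) (by omega)⟩
  have p2 : pw2 M (n + 3) = 12 * M * (4 * M * pw2 M (n + 2)) := by unfold pw2; push_cast; ring
  have p3 : ∀ l, |lv (pp M n) l| ≤ pw2 M (n + 2) := fun l => by
    unfold lv
    have := p1 (l.1 + 1); have := p1 0
    cases l.2 <;> simp only [cond_true, cond_false, abs_le] <;> omega
  have k : ∀ s : ℤ, s ≤ 4 * M * pw2 M (n + 2) → 12 * M * s ≤ pw2 M (n + 3) := fun s hs => by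
    rw [p2]; exact mul_le_mul_of_nonneg_left hs (by positivity)
  have k2 : ∀ s : ℤ, |s| ≤ 8 * pw2 M (n + 2) → 12 * M * |s| ≤ pw2 M (n + 3) := fun s hs =>
    k _ (by nlinarith [p0 (n + 2)])
  have a0 := p1 0
  have a1 := p1 (n + 1)
  have a2 := p1 (n + 2)
  refine ⟨by rw [fs2_len]; exact hM, by omega, hg, p0 _, k _ ?_, forall_fs2.2 ⟨k2 _ ?_, k2 _ ?_,
    k2 _ ?_, forall_forms.2 ⟨by simpa using (p0 _).le, fun j _ => k2 _ ?_, fun j _ => k _ ?_,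
      fun C _ => k2 _ ?_⟩⟩⟩
  · have : |2 * pp M n (n + 1) - pp M n 0 - pp M n (n + 2)| ≤ 2 * pw2 M (n + 2) := by
      rw [abs_le]; omega
    nlinarith [p0 (n + 2)]
  · rw [abs_le]; omega
  · rw [abs_le]; omega
  · rw [abs_le]; omega
  · have := p1 j; rw [abs_le]; omega
  · have := p1 j
    rw [abs_of_nonneg (by have := this.1; positivity)]
    push_cast; nlinarith [this.2]
  · have b1 := abs_le.1 (p3 C.1)
    have b2 := abs_le.1 (p3 C.2.1)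
    have b3 := abs_le.1 (p3 C.2.2)
    rw [abs_le]; omega

theorem feas2 {M n : ℕ} {φ : F3} {g η s : ℚ} (hφ : Bd n φ)
    (hM : M = 2 * (2 * n + 30 + φ.length) + 3) (hg : M * (3 * g) = 1)
    (hl : (η = 15 / 8 * g ∧ s = g ∧ ¬ Sat3 φ) ∨ (η = 11 / 8 * g ∧ s = g / 2)) :
    Jit (dm' M n φ) (1 - 3 * g - η) := by
  have hM' : (43 : ℚ) ≤ M := by exact_mod_cast (by omega : 43 ≤ M)
  have g0 : 0 < g := by nlinarith
  have g1 : g ≤ 1 / 129 := by nlinarith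
  have η1 : 11 / 8 * g ≤ η ∧ η ≤ 15 / 8 * g := by
    rcases hl with h | h <;> constructor <;> linarith [h.1]
  refine (ok2 hM hg).feas (s := s) (hl.imp (fun h => ⟨h.1, h.2.1⟩) id) fun y => ?_
  rw [fs2_map]
  obtain ⟨c, hc⟩ : ∃ c : ℚ, y / (M * pw2 M (n + 3)) = c := ⟨_, rfl⟩
  rw [hc]
  rcases hh_cases (g := g) (η := η) (τ := M * c) (y := y)
    (f := c * ((2 * pp M n (n + 1) - pp M n 0 - pp M n (n + 2) : ℤ) : ℚ))
    (L := fs2 (3 * M) n (fun j => c * pp M n j) φ) (by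
      rw [fs2_len, ← hg, hM]; push_cast; rfl) (by simp [fs2]) η1.1 η1.2 with h | ⟨h1, h2⟩
  · exact Or.inl (by omega)
  · rw [h2, add_sub_cancel_left]
    obtain ⟨n0, n1, n2, n3⟩ := forall_fs2.1 h1
    obtain ⟨t, k, ht, b1, b2⟩ := decode hφ (by omega) hg (by omega) η1.2 n3
    have e : c * pp M n (n + 2) = c := by simp [pp, pw2]
    simp only [e] at n0 n1 n2
    rw [ht] at n0 n1
    have := ty_std (τ := M * c) (s := s) g0 g1 (b1 0 (by omega)) (b1 (n + 1) le_rfl)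
      (hl.imp (fun h => ⟨h.1, h.2.1, not_lt.1 fun hh => h.2.2 (b2 hh)⟩) id) n0 n1 n2
    rw [← ht, ← ht] at this
    push_cast
    rwa [mul_sub, mul_sub, e, mul_left_comm]

theorem theta {M W n j : ℕ} {g : ℚ} (hg : M * (3 * g) = 1) (hW : W = 48 * (M * M)) (hj : j ≤ n + 2)
    {Y e k c r : ℤ} (hY : Y = k * W ^ (j + 1) + c * W ^ j + r) (he : 0 ≤ M * r + e)
    (hr : M * r + e ≤ M * W ^ j) : ∃ τ : ℚ, ((M * Y + e : ℤ) : ℚ) / (M * pw2 M (n + 3)) * pp M n j =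
      k + c * (3 / 16 * g ^ 2) + τ ∧ 0 ≤ τ ∧ τ ≤ 3 / 16 * g ^ 2 := by
  have hM : (0 : ℚ) < M := by
    rcases Nat.eq_zero_or_pos M with rfl | h
    · simp at hg
    · exact_mod_cast h
  have hW' : (W : ℚ) = 48 * (M * M) := by exact_mod_cast hW
  have W0 : (0 : ℚ) < W := by rw [hW']; positivity
  have e4 : 3 / 16 * g ^ 2 = 1 / W := by
    rw [show g = 1 / (3 * M) by field_simp; linarith, hW']; field_simp; ring
  have he' : (0 : ℚ) ≤ M * r + e := by exact_mod_cast he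
  have hr' : (M * r + e : ℚ) ≤ M * W ^ j := by exact_mod_cast hr
  obtain ⟨i, hi⟩ := Nat.exists_eq_add_of_le hj
  refine ⟨(M * r + e) / (M * W ^ (j + 1)), ?_, by positivity, ?_⟩
  · unfold pp pw2
    rw [← hW, e4, hY, show n + 3 = j + i + 1 by omega, show n + 2 - j = i by omega]
    push_cast
    field_simp
    ring
  · rw [e4, div_le_div_iff₀ (by positivity) W0, pow_succ]
    nlinarith

end Pool.Agent.H38.Jit
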