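import Pool.Agent.H38.Jit.Q4

/-!
One letter of a sequence with small deviation decides satisfiability.
-/

set_option autoImplicit false

namespace Pool.Agent.H38.Jit

open Pool.Agent.H38.NP Pool.Agent.H38.ER

theorem cfg {M W n : ℕ} {g : ℚ} (hg : M * (3 * g) = 1) (hW : W = 48 * (M * M)) {z : ℕ → Bool}
    {Y0 : ℕ} {a e : ℤ} (e0 : 0 ≤ e) (e1 : e ≤ M) (h0 : Y0 < W ^ (n + 2))
    (hd : ∀ j < n + 2, ∃ k r : ℕ, r < W ^ j ∧ Y0 = k * W ^ (j + 1) + 16 * M * (z j).toNat * W ^ j + r)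
    {θ : ℕ → ℚ} (hθ : ∀ j, ((M * (Y0 + a * W ^ (n + 2)) + e : ℤ) : ℚ) / (M * pw2 M (n + 3)) *
      pp M n j = θ j) : ∃ (k : ℕ → ℤ) (τ : ℕ → ℚ),
      (∀ j ≤ n + 1, θ j = k j + (z j).toNat * g + τ j) ∧ θ (n + 2) = a * (3 / 16 * g ^ 2) + τ (n + 2) ∧
      ∀ j ≤ n + 2, 0 ≤ τ j ∧ τ j ≤ 3 / 16 * g ^ 2 := by
  have key : ∀ j ≤ n + 2, ∃ (k : ℤ) (τ : ℚ), (j ≤ n + 1 → θ j = k + (z j).toNat * g + τ) ∧
      (j = n + 2 → θ j = a * (3 / 16 * g ^ 2) + τ) ∧ 0 ≤ τ ∧ τ ≤ 3 / 16 * g ^ 2 := by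
    intro j hj
    rcases hj.lt_or_eq with hj' | rfl
    · obtain ⟨k, r, h1, h2⟩ := hd j hj'
      obtain ⟨i, hi⟩ := Nat.exists_eq_add_of_lt hj'
      have h1' : (r : ℤ) + 1 ≤ W ^ j := by exact_mod_cast h1
      obtain ⟨τ, h3, h4⟩ := theta hg hW hj (Y := Y0 + a * W ^ (n + 2)) (e := e)
        (k := k + a * W ^ i) (c := 16 * M * (z j).toNat) (r := r)
        (by rw [h2, show n + 2 = j + i + 1 by omega]; push_cast; ring) (by positivity)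
        (by nlinarith)
      refine ⟨k + a * W ^ i, τ, fun _ => ?_, by omega, h4⟩
      rw [← hθ, h3]; push_cast; linear_combination ((z j).toNat : ℚ) * g * hg
    · have h1' : (Y0 : ℤ) + 1 ≤ W ^ (n + 2) := by exact_mod_cast h0
      obtain ⟨τ, h3, h4⟩ := theta hg hW le_rfl (Y := Y0 + a * W ^ (n + 2)) (e := e)
        (k := 0) (c := a) (r := Y0) (by ring) (by positivity) (by nlinarith)
      exact ⟨0, τ, by omega, fun _ => by rw [← hθ, h3]; simp, h4⟩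
  choose! k τ h1 h2 h3 using key
  exact ⟨k, τ, fun j hj => h1 j (by omega) hj, h2 _ le_rfl rfl, h3⟩

theorem gfacts {M : ℕ} {g : ℚ} (h9 : 43 ≤ M) (hg : M * (3 * g) = 1) :
    0 < g ∧ g ≤ 1 / 129 ∧ g ^ 2 ≤ 1 / 129 * g ∧ M * g ^ 2 = g / 3 ∧ 16 * M < 48 * (M * M) := by
  have hM' : (43 : ℚ) ≤ M := by exact_mod_cast h9
  have g0 : 0 < g := by nlinarith
  have g1 : g ≤ 1 / 129 := by nlinarith
  exact ⟨g0, g1, by nlinarith, by linear_combination g / 3 * hg, by nlinarith⟩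

theorem pp_top (M n : ℕ) (c : ℚ) : c * pp M n (n + 2) = c := by simp [pp, pw2]

theorem pp_q (M n : ℕ) (c : ℚ) :
    c * ((2 * pp M n (n + 1) - pp M n 0 - pp M n (n + 2) : ℤ) : ℚ) =
      2 * (c * pp M n (n + 1)) - c * pp M n 0 - c * pp M n (n + 2) := by push_cast; ring

theorem atK {M n : ℕ} {φ : F3} {g : ℚ} (hφ : Bd n φ) (h9 : 43 ≤ M) (hg : M * (3 * g) = 1) {Y : ℤ}
    (hY : Y = 16 * M * pw2 M (n + 1) + 12 * M * pw2 M (n + 2)) :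
    (∀ s ∈ fs2 (3 * M) n (pp M n) φ,
      Near (21 / 16 * g) ((M * Y : ℤ) / (M * pw2 M (n + 3)) * (s : ℚ))) ∧
    (∃ J : ℤ, |(M * Y : ℤ) / (M * pw2 M (n + 3)) *
      ((2 * pp M n (n + 1) - pp M n 0 - pp M n (n + 2) : ℤ) : ℚ) - J - 5 / 4 * g| ≤ g / 32) ∧
    M * ((M * Y : ℤ) / (M * pw2 M (n + 3)) : ℚ) ≤ 1 / 2 := by
  obtain ⟨g0, g1, g2, g3, hW1⟩ := gfacts h9 hg
  obtain ⟨W, hW⟩ : ∃ W, W = 48 * (M * M) := ⟨_, rfl⟩
  rw [← hW] at hW1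
  have W0 : 0 < W := by omega
  obtain ⟨θ, hθ⟩ : ∃ θ : ℕ → ℚ, ∀ j, ((M * Y : ℤ) : ℚ) / (M * pw2 M (n + 3)) * pp M n j = θ j :=
    ⟨_, fun _ => rfl⟩
  obtain ⟨k, τ, a1, a2, a3⟩ := cfg hg hW (z := fun j => decide (j = n + 1))
    (Y0 := 16 * M * W ^ (n + 1)) (a := 12 * M) (e := 0) le_rfl (by positivity)
    (by rw [pow_succ W (n + 1), mul_comm]; exact Nat.mul_lt_mul_of_pos_left hW1 (by positivity))
    (fun j hj => by
      rcases (by omega : j < n + 1 ∨ j = n + 1) with h | rfl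
      · obtain ⟨i, hi⟩ := Nat.exists_eq_add_of_lt h
        exact ⟨16 * M * W ^ i, 0, by positivity, by rw [hi]; simp [show j ≠ j + i + 1 by omega]; ring⟩
      · exact ⟨0, 0, by positivity, by simp⟩) (θ := θ) fun j => by
        rw [← hθ, hY, add_zero]; simp only [pw2, ← hW]; push_cast; rfl
  have b0 := a1 0 (by omega)
  have b1 := a1 (n + 1) le_rfl
  have c0 := a3 0 (by omega)
  have c1 := a3 (n + 1) (by omega)
  have c2 := a3 (n + 2) le_rfl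
  simp only [decide_true, Bool.toNat_true, Nat.cast_one, show (0 : ℕ) ≠ n + 1 by omega, decide_false,
    Bool.toNat_false, Nat.cast_zero] at b0 b1
  replace a2 : θ (n + 2) = 3 / 4 * g + τ (n + 2) := by
    rw [a2]; push_cast; linear_combination 9 / 4 * g3
  refine ⟨?_, ⟨2 * k (n + 1) - k 0, ?_⟩, ?_⟩
  · rw [← List.forall_mem_map (f := fun s : ℤ => ((M * Y : ℤ) : ℚ) / (M * pw2 M (n + 3)) * (s : ℚ))
      (P := Near (21 / 16 * g)), fs2_map]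
    simp only [hθ]
    refine forall_fs2.2 ⟨⟨2 * k 0, ?_⟩, ⟨2 * k (n + 1), ?_⟩, ⟨0, ?_⟩,
      enc2 hφ hg h9 (Or.inr fun j hj => by simp; omega) a1 fun j hj => a3 j (by omega)⟩ <;>
      rw [abs_lt] <;> push_cast <;> constructor <;> linarith [c0.1, c0.2, c1.1, c1.2, c2.1, c2.2]
  · rw [pp_q, hθ, hθ, hθ, abs_le]; push_cast
    constructor <;> linarith [c0.1, c0.2, c1.1, c1.2, c2.1, c2.2]
  · rw [← pp_top M n (_ / _), hθ, a2]
    have := mul_le_mul_of_nonneg_left c2.2 (Nat.cast_nonneg M)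
    linarith

theorem atY {M n : ℕ} {φ : F3} {g : ℚ} (hφ : Bd n φ) (hM : M = 2 * (2 * n + 30 + φ.length) + 3)
    (hg : M * (3 * g) = 1) (h : Sat3 φ) : ∃ X : ℤ, 0 ≤ X ∧ X < 12 * M * pw2 M (n + 2) ∧
      HH (1 - 3 * g - 11 / 8 * g) (3 * g * ((M * X + 1 : ℤ) : ℚ))
        (M * ((M * X + 1 : ℤ) / (M * pw2 M (n + 3)))) ((M * X + 1 : ℤ) / (M * pw2 M (n + 3)) *
          ((2 * pp M n (n + 1) - pp M n 0 - pp M n (n + 2) : ℤ) : ℚ))
        ((fs2 (3 * M) n (pp M n) φ).map fun s : ℤ =>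
          (M * X + 1 : ℤ) / (M * pw2 M (n + 3)) * (s : ℚ)) < M * X + 1 := by
  obtain ⟨a, ha⟩ := h
  have h9 : 43 ≤ M := by omega
  obtain ⟨g0, g1, g2, g3, hW1⟩ := gfacts h9 hg
  obtain ⟨W, hW⟩ : ∃ W, W = 48 * (M * M) := ⟨_, rfl⟩
  rw [← hW] at hW1
  obtain ⟨z, hz⟩ : ∃ z : ℕ → Bool, z = fun j => j = 0 || (j ≤ n && a (j - 1)) := ⟨_, rfl⟩
  obtain ⟨X, x1, x2⟩ := digits W (fun j => 16 * M * (z j).toNat)
    (fun j => (Nat.mul_le_mul_left _ (z j).toNat_le).trans_lt (by omega)) (n + 2)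
  obtain ⟨X', hX⟩ : ∃ X' : ℤ, X' = X + (12 * M - 1) * W ^ (n + 2) := ⟨_, rfl⟩
  have x3 : (X : ℤ) < W ^ (n + 2) := by exact_mod_cast x1
  refine ⟨X', by
    have : (0 : ℤ) ≤ 12 * M - 1 := by omega
    rw [hX]; positivity, by rw [hX, pw2, ← hW]; linarith, ?_⟩
  obtain ⟨θ, hθ⟩ : ∃ θ : ℕ → ℚ, ∀ j, ((M * X' + 1 : ℤ) : ℚ) / (M * pw2 M (n + 3)) * pp M n j = θ j :=
    ⟨_, fun _ => rfl⟩
  obtain ⟨k, τ, a1, a2, a3⟩ := cfg hg hW (z := z) (a := 12 * M - 1) (e := 1) (by omega) (by omega)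
    x1 x2 (θ := θ) fun j => by rw [← hθ, hX]
  have b0 := a1 0 (by omega)
  have b1 := a1 (n + 1) le_rfl
  have c0 := a3 0 (by omega)
  have c1 := a3 (n + 1) (by omega)
  have c2 := a3 (n + 2) le_rfl
  rw [show z 0 = true by simp [hz], Bool.toNat_true, Nat.cast_one] at b0
  rw [show z (n + 1) = false by simp [hz], Bool.toNat_false, Nat.cast_zero] at b1
  replace a2 : θ (n + 2) = 3 / 4 * g - 3 / 16 * g ^ 2 + τ (n + 2) := by
    rw [a2]; push_cast; linear_combination 9 / 4 * g3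
  have : 3 * g * ((M * X' + 1 : ℤ) : ℚ) = X' + 3 * g := by push_cast; linear_combination X' * hg
  have e : ((M * X' + 1 : ℤ) : ℚ) / (M * pw2 M (n + 3)) = θ (n + 2) := by rw [← hθ, pp_top]
  rw [fs2_map, this, pp_q]
  simp only [hθ]
  rw [e, hh_std (by linarith) (by linarith), fs2_len]
  · have d0 : 1 / 8 ≤ M * θ (n + 2) := by
      have := mul_nonneg (Nat.cast_nonneg (α := ℚ) M) c2.1
      rw [a2]; linarith
    have d1 : ⌊-(M * θ (n + 2)) - (2 * θ (n + 1) - θ 0 - θ (n + 2)) - 11 / 8 * g⌋ <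
      -(2 * k (n + 1) - k 0) := Int.floor_lt.2 (by
        push_cast; linarith [c0.1, c0.2, c1.1, c1.2, c2.1, c2.2])
    have d2 : ⌊2 * θ (n + 1) - θ 0 - θ (n + 2) + (3 * g - 11 / 8 * g)⌋ <
      2 * k (n + 1) - k 0 := Int.floor_lt.2 (by
        push_cast; linarith [c0.1, c0.2, c1.1, c1.2, c2.1, c2.2])
    have : (M : ℤ) = 2 * ((2 * n + 30 + φ.length : ℕ) : ℤ) + 3 := by omega
    rw [← this]; omega
  · refine forall_fs2.2 ⟨⟨2 * k 0, ?_⟩, ⟨2 * k (n + 1), ?_⟩, ⟨0, ?_⟩, fun σ hσ => ?_⟩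
    iterate 3 rw [abs_lt]; push_cast; constructor <;> linarith [c0.1, c0.2, c1.1, c1.2, c2.1, c2.2]
    obtain ⟨q, hq⟩ := enc2 hφ hg h9 (Or.inl ⟨by simp [hz], fun C hC => by
      obtain ⟨v1, v2, v3⟩ := hφ C hC
      simpa [hz, Nat.succ_le_of_lt v1, Nat.succ_le_of_lt v2, Nat.succ_le_of_lt v3] using ha C hC⟩)
      a1 (fun j hj => a3 j (by omega)) σ hσ
    exact ⟨q, by linarith⟩

theorem ybd {M W A X Y : ℤ} (hM : 43 ≤ M) (hW : 16 * M < W) (hA : 0 < A)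
    (hY : Y = 16 * M * A + 12 * M * (A * W)) : 2 ≤ M * Y ∧ M * Y ≤ M * (A * W * W) ∧
      (X < 12 * M * (A * W) → M * X + 1 ≤ M * Y - 1) := by
  have a : 0 < A * W := mul_pos hA (by omega)
  have b : 0 < M * A := mul_pos (by omega) hA
  have c : 0 < M * (A * W) := mul_pos (by omega) a
  refine ⟨by nlinarith, mul_le_mul_of_nonneg_left ?_ (by omega), fun h => ?_⟩
  · nlinarith [mul_le_mul_of_nonneg_left hW.le a.le, mul_le_mul_of_nonneg_left hW.le hA.le]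
  · have : X + 1 ≤ Y := by linarith
    nlinarith

theorem two {M n : ℕ} {φ : F3} {g : ℚ} (hφ : Bd n φ)
    (hM : M = 2 * (2 * n + 30 + φ.length) + 3) (hg : M * (3 * g) = 1) :
    ∃ hp : ps' M n < (dm' M n φ).sum,
      (∀ S, Within (dm' M n φ) S (1 - 3 * g - 15 / 8 * g) → (S ⟨_, hp⟩).val < 2) ∧
      (Sat3 φ → ∀ S, Within (dm' M n φ) S (1 - 3 * g - 11 / 8 * g) → 2 ≤ (S ⟨_, hp⟩).val) := by
  have ok := ok2 hM hg
  have h9 : 43 ≤ M := by omega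
  obtain ⟨g0, -, -, -, hW1⟩ := gfacts h9 hg
  obtain ⟨Y, hY⟩ : ∃ Y : ℤ, Y = 16 * M * pw2 M (n + 1) + 12 * M * pw2 M (n + 2) := ⟨_, rfl⟩
  obtain ⟨h1, ⟨J, h2⟩, h3⟩ := atK hφ h9 hg hY
  have yb := fun X => ybd (M := M) (W := (48 * (M * M) : ℕ)) (A := pw2 M (n + 1)) (X := X)
    (by omega) (by omega) (pow_pos (by omega) _) hY
  have y1 := (yb 0).1
  have y2 : M * Y ≤ M * pw2 M (n + 3) := (yb 0).2.1
  have hps : ((ps' M n : ℕ) : ℤ) = M * Y - 1 := by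
    rw [ps', ← hY]; exact Int.toNat_of_nonneg (by omega)
  have hsum : (((dm' M n φ).sum : ℕ) : ℤ) = M * pw2 M (n + 3) := ok.sum
  have hlt : ps' M n < (dm' M n φ).sum := by omega
  have q1 : ((ps' M n + 1 : ℕ) : ℤ) = M * Y := by omega
  refine ⟨hlt, fun S hS => letter_lt hS ⟨_, hlt⟩ (by change 1 ≤ ps' M n; omega) ?_,
    fun hs S hS => ?_⟩
  · simp only [q1, hps]
    exact ok.letA h1 h2
  obtain ⟨X, x0, x1, x2⟩ := atY hφ hM hg hs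
  have x3 := mul_nonneg (Nat.cast_nonneg (α := ℤ) M) x0
  have x4 := (yb X).2.2 x1
  obtain ⟨y, hy⟩ := Int.eq_ofNat_of_zero_le (by omega : 0 ≤ M * X + 1)
  refine letter_ge hS ⟨_, hlt⟩ (y := y) (by omega) (by change y ≤ ps' M n; omega) ?_ ?_ ?_
  · rw [← hy]
    exact (ok.fl_sum _ _).trans_lt x2
  · simp only [q1]
    refine (ok.fl_z _ _).trans_le (Int.lt_add_one_iff.1 (Int.floor_lt.2 ?_))
    push_cast at h3 ⊢; linarith
  · simp only [q1, hps]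
    exact ok.letB h1 h2 h3

end Pool.Agent.H38.Jit
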