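import Pool.Agent.H38.Jit.Q5

/-!
Computing one letter of an optimal just-in-time sequence is NP-hard.
-/

set_option autoImplicit false

namespace Pool.Agent.H38.Jit

open Pool.Agent.H38.NP Pool.Agent.H38.ER Finset

def dmB (φ : F3) : List Bin := (dm' (M2 φ) (nv φ) φ).map Bin.mk
def psB (φ : F3) : Bin := ⟨ps' (M2 φ) (nv φ)⟩
def DD (φ : F3) : ℤ := M2 φ * pw2 (M2 φ) (nv φ + 3)
def L1 (φ : F3) : ℤ := 2 * (DD φ * DD φ * (DD φ * (24 * M2 φ : ℕ)))
def penB (φ : F3) : List (Bin × Bin × Bin) :=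
  [(⟨(L1 φ).toNat⟩, ⟨24 * M2 φ - 39⟩, ⟨24 * M2 φ⟩),
   (⟨(L1 φ * (1 + L1 φ)).toNat⟩, ⟨24 * M2 φ - 35⟩, ⟨24 * M2 φ⟩)]

section
variable {α : Type} [Enc α]
@[fun_prop] theorem pt_pw2 {f g : α → ℕ} (hf : PT f) (hg : PT g) : PT fun a => pw2 (f a) (g a) :=
  (pt_zprod (l := fun a => List.replicate (g a) ((48 * (f a * f a) : ℕ) : ℤ))
    (by fun_prop)).of_eq fun a => by simp [pw2]
@[fun_prop] theorem pt_pp {f g k : α → ℕ} (hf : PT f) (hg : PT g) (hk : PT k) :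
    PT fun a => pp (f a) (g a) (k a) := by unfold pp; fun_prop
@[fun_prop] theorem pt_lv2 {M m : α → ℕ} {l : α → Lit} (hM : PT M) (hm : PT m) (hl : PT l) :
    PT fun a => lv (pp (M a) (m a)) (l a) := by
  unfold lv; fun_prop
end

theorem pt_nv : PT nv := by unfold nv; fun_prop
theorem pt_M2 : PT M2 := by have := pt_nv; unfold M2; fun_prop

theorem pt_dmB : PT dmB := by
  have h1 := pt_nv
  have h2 := pt_M2
  have h3 : PT fun p : ℕ × ℕ × F3 => fs2 (3 * p.1) p.2.1 (pp p.1 p.2.1) p.2.2 := by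
    unfold fs2 forms; fun_prop
  have h4 : PT fun p : ℕ × ℤ × ℤ × List ℤ => (demN p.1 p.2.1 p.2.2.1 p.2.2.2).map Bin.mk := by
    simp only [demN, dsN, List.map_cons, List.map_map, Function.comp_def]; fun_prop
  exact h4.comp (g := fun φ => (M2 φ, pw2 (M2 φ) (nv φ + 3), 2 * pp (M2 φ) (nv φ) (nv φ + 1) -
    pp (M2 φ) (nv φ) 0 - pp (M2 φ) (nv φ) (nv φ + 2), fs2 (3 * M2 φ) (nv φ) (pp (M2 φ) (nv φ)) φ))
    (PT.mk h2 (PT.mk (by fun_prop) (PT.mk (by fun_prop) (h3.comp (g := fun φ => (M2 φ, nv φ, φ))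
      (by fun_prop)))))

theorem pt_psB : PT psB := by
  have h1 := pt_nv
  have h2 := pt_M2
  unfold psB ps'; fun_prop

theorem pt_pen_aux {f : F3 → ℤ} {g : F3 → ℕ} (hf : PT f) (hg : PT g) : PT fun p =>
    [(Bin.mk (f p).toNat, Bin.mk (24 * g p - 39), Bin.mk (24 * g p)),
      (Bin.mk (f p * (1 + f p)).toNat, Bin.mk (24 * g p - 35), Bin.mk (24 * g p))] := by fun_prop

theorem pt_L_aux {f : F3 → ℤ} {g : F3 → ℕ} (hf : PT f) (hg : PT g) : PT fun p =>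
    2 * (f p * f p * (f p * (24 * g p : ℕ))) := by fun_prop

theorem pt_D_aux {f g : F3 → ℕ} (hf : PT f) (hg : PT g) : PT fun p =>
    (g p : ℤ) * pw2 (g p) (f p + 3) := by fun_prop

theorem pt_DD : PT DD := pt_D_aux pt_nv pt_M2
theorem pt_L1 : PT L1 := pt_L_aux pt_DD pt_M2
theorem pt_penB : PT penB := pt_pen_aux pt_L1 pt_M2

theorem bd_nv (φ : F3) : Bd (nv φ) φ := fun C hC => by
  have := List.single_le_sum (l := φ.map fun C => C.1.1 + C.2.1.1 + C.2.2.1)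
    (fun _ _ => Nat.zero_le _) _ (List.mem_map_of_mem hC)
  unfold nv; omega

theorem val_dmB (φ : F3) : (dmB φ).map Bin.val = dm' (M2 φ) (nv φ) φ := by
  simp [dmB, Function.comp_def]

theorem hg2 (φ : F3) : (M2 φ : ℚ) * (3 * (1 / (3 * M2 φ))) = 1 := by
  have : (0 : ℚ) < M2 φ := by exact_mod_cast (by unfold M2; omega : 0 < M2 φ)
  field_simp

theorem pos_dmB (φ : F3) : ∀ x ∈ dmB φ, 0 < x.val :=
  List.forall_mem_map.2 (ok2 rfl (hg2 φ)).pos

theorem max_key (φ : F3) : ∃ k : Fin ((dmB φ).map Bin.val).sum, k.val = (psB φ).val ∧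
    ∀ S, MaxOpt ((dmB φ).map Bin.val) S → (Sat3 φ ↔ 2 ≤ (S k).val) := by
  rw [val_dmB]
  obtain ⟨hp, h1, h2⟩ := two (bd_nv φ) rfl (hg2 φ)
  refine ⟨⟨_, hp⟩, rfl, fun S hS => ⟨fun h => ?_, fun h => by_contra fun hh => ?_⟩⟩
  · obtain ⟨T, a, b⟩ := feas2 (bd_nv φ) rfl (hg2 φ) (Or.inr ⟨rfl, rfl⟩)
    exact h2 h S (hS.2 T _ a b)
  · obtain ⟨T, a, b⟩ := feas2 (bd_nv φ) rfl (hg2 φ) (Or.inl ⟨rfl, rfl, hh⟩)
    exact absurd (h1 S (hS.2 T _ a b)) (not_lt.2 h)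

theorem pen_ge {F : List (Bin × Bin × Bin)} {t : Bin × Bin × Bin} (ht : t ∈ F) (x : ℚ) :
    (t.1.val : ℚ) * max 0 (|x| - (t.2.1.val : ℚ) / t.2.2.val) ≤ pen F x :=
  le_add_of_nonneg_of_le (abs_nonneg x) (List.single_le_sum (fun y hy => by
    obtain ⟨t, -, rfl⟩ := List.mem_map.1 hy; positivity) _ (List.mem_map_of_mem ht))

theorem pen_nonneg (F : List (Bin × Bin × Bin)) (x : ℚ) : 0 ≤ pen F x :=
  add_nonneg (abs_nonneg x) (List.sum_nonneg fun y hy => by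
    obtain ⟨t, -, rfl⟩ := List.mem_map.1 hy; positivity)

theorem tot_within {F : List (Bin × Bin × Bin)} {d : List ℕ} {S T : Fin d.sum → Fin d.length}
    {a p q : ℕ} {C : ℚ} (ht : (Bin.mk a, Bin.mk p, Bin.mk q) ∈ F) (hq : 0 < q) (hS : TotOpt F d S)
    (hT : IsSeq d T) (hC : ∀ i k, 1 ≤ k → k ≤ d.sum → pen F (dev d T i k) ≤ C)
    (ha : d.length * (d.sum * C) * (d.sum * q) < a) : Within d S (p / q) := by
  intro i k h1 h2
  by_contra hh
  have D0 : (0 : ℚ) < d.sum := by exact_mod_cast (by omega : 0 < d.sum)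
  have q0 : (0 : ℚ) < q := by exact_mod_cast hq
  have b1 : total F d T ≤ d.length * (d.sum * C) := by
    refine (sum_le_card_nsmul _ _ (d.sum * C) fun i _ => ?_).trans (by simp)
    exact (sum_le_card_nsmul _ _ C fun k hk => hC i k (mem_Icc.1 hk).1 (mem_Icc.1 hk).2).trans
      (by simp)
  have b2 : pen F (dev d S i k) ≤ total F d S :=
    (single_le_sum (f := fun k => pen F (dev d S i k)) (fun _ _ => pen_nonneg _ _)
      (mem_Icc.2 ⟨h1, h2⟩)).trans (single_le_sum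
        (f := fun i => ∑ k ∈ Icc 1 d.sum, pen F (dev d S i k))
        (fun _ _ => sum_nonneg fun _ _ => pen_nonneg _ _) (mem_univ i))
  have b3 := pen_ge ht (dev d S i k)
  have b4 : 1 ≤ (|dev d S i k| - p / q) * (d.sum * q) := by
    obtain ⟨z, hz⟩ : ∃ z : ℤ, (|dev d S i k| - p / q) * (d.sum * q) = z :=
      ⟨|(cnt S i k : ℤ) * d.sum - k * d.get i| * q - p * d.sum, by
        rw [dev]
        generalize cnt S i k = c, d.get i = w
        generalize d.sum = D at D0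
        have : (c : ℚ) - k * (w / D) = (c * D - k * w) / D := by field_simp
        rw [this, abs_div, abs_of_pos D0]; push_cast; field_simp⟩
    have : (0 : ℚ) < z := hz ▸ mul_pos (by linarith) (by positivity)
    rw [hz]; exact_mod_cast this
  simp only at b3
  rw [max_eq_right (by linarith)] at b3
  have b5 := mul_le_mul_of_nonneg_right (b3.trans (b2.trans ((hS.2 T hT).trans b1)))
    (by positivity : (0 : ℚ) ≤ d.sum * q)
  nlinarith [mul_le_mul_of_nonneg_left b4 (Nat.cast_nonneg (α := ℚ) a)]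

theorem hM2 (φ : F3) : M2 φ = 2 * (2 * nv φ + 30 + φ.length) + 3 := rfl
theorem dm_facts (φ : F3) : (((dm' (M2 φ) (nv φ) φ).sum : ℕ) : ℤ) = DD φ ∧
    (dm' (M2 φ) (nv φ) φ).length ≤ (dm' (M2 φ) (nv φ) φ).sum ∧ 0 < (dm' (M2 φ) (nv φ) φ).length :=
  have ok := ok2 (M := M2 φ) (n := nv φ) (φ := φ) rfl (hg2 φ)
  ⟨ok.sum, List.length_le_sum_of_one_le _ ok.pos, Nat.succ_pos _⟩

attribute [local irreducible] M2 nv dm' ps' DD in
theorem tot_key (φ : F3) : ∃ k : Fin ((dmB φ).map Bin.val).sum, k.val = (psB φ).val ∧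
    ∀ S, TotOpt (penB φ) ((dmB φ).map Bin.val) S → (Sat3 φ ↔ 2 ≤ (S k).val) := by
  rw [val_dmB]
  have h9 : 43 ≤ M2 φ := by rw [hM2]; omega
  have M0 : (43 : ℚ) ≤ M2 φ := by exact_mod_cast h9
  have e0 : ((24 * M2 φ - 39 : ℕ) : ℚ) / (24 * M2 φ : ℕ) =
      1 - 3 * (1 / (3 * M2 φ)) - 15 / 8 * (1 / (3 * M2 φ)) := by
    rw [Nat.cast_sub (by omega)]; push_cast; field_simp; ring
  have e1 : ((24 * M2 φ - 35 : ℕ) : ℚ) / (24 * M2 φ : ℕ) =
      1 - 3 * (1 / (3 * M2 φ)) - 11 / 8 * (1 / (3 * M2 φ)) := by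
    rw [Nat.cast_sub (by omega)]; push_cast; field_simp; ring
  have g0 : (0 : ℚ) < 1 / (3 * M2 φ) := by positivity
  obtain ⟨hD, hl, hn⟩ := dm_facts φ
  obtain ⟨L, hL⟩ : ∃ L : ℕ, L1 φ = L := Int.eq_ofNat_of_zero_le (by rw [L1, ← hD]; positivity)
  have hL' : (L : ℚ) = 2 * ((dm' (M2 φ) (nv φ) φ).sum * (dm' (M2 φ) (nv φ) φ).sum *
      ((dm' (M2 φ) (nv φ) φ).sum * (24 * M2 φ : ℕ))) := by
    rw [L1, ← hD] at hL
    generalize (dm' (M2 φ) (nv φ) φ).sum = D at hL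
    exact_mod_cast hL.symm
  have hF : penB φ = [(⟨L⟩, ⟨24 * M2 φ - 39⟩, ⟨24 * M2 φ⟩),
      (⟨L * (1 + L)⟩, ⟨24 * M2 φ - 35⟩, ⟨24 * M2 φ⟩)] := by rw [penB, hL]; norm_cast
  have bd : ∀ C : ℚ, 0 < C → (dm' (M2 φ) (nv φ) φ).length * ((dm' (M2 φ) (nv φ) φ).sum * C) *
      ((dm' (M2 φ) (nv φ) φ).sum * (24 * M2 φ : ℕ)) < L * C := fun C hC => by
    rw [hL']
    generalize (dm' (M2 φ) (nv φ) φ).sum = D at hl
    generalize (dm' (M2 φ) (nv φ) φ).length = n at hl hn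
    have a : (n : ℚ) ≤ D := by exact_mod_cast hl
    have b : (0 : ℚ) < D := by exact_mod_cast (by omega : 0 < D)
    have c : (0 : ℚ) < D * C * (D * (24 * M2 φ : ℕ)) := by positivity
    nlinarith [mul_le_mul_of_nonneg_right a c.le, mul_pos b c]
  obtain ⟨hp, h1, h2⟩ := two (M := M2 φ) (bd_nv φ) (hM2 φ) (hg2 φ)
  refine ⟨⟨_, hp⟩, rfl, fun S hS => ⟨fun h => ?_, fun h => by_contra fun hh => ?_⟩⟩
  · obtain ⟨T, a, b⟩ := feas2 (bd_nv φ) (hM2 φ) (hg2 φ) (Or.inr ⟨rfl, rfl⟩)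
    refine h2 h S (e1 ▸ tot_within (a := L * (1 + L)) (C := 1 + L) (by simp [hF]) (by omega) hS a
      (fun i k k1 k2 => ?_) (by push_cast [-Nat.cast_list_sum]; simpa using bd (1 + L) (by linarith [Nat.cast_nonneg (α := ℚ) L])))
    have c : |dev _ T i k| ≤ _ := b i k k1 k2
    simp only [pen, hF, List.map_cons, List.map_nil, List.sum_cons, List.sum_nil, e0, e1]
    rw [max_eq_left (sub_nonpos.2 c)]
    have : max 0 (|dev _ T i k| - (1 - 3 * (1 / (3 * M2 φ)) - 15 / 8 * (1 / (3 * (M2 φ : ℚ))))) ≤ 1 :=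
      max_le zero_le_one (by
        have : (1 : ℚ) / (3 * M2 φ) ≤ 1 / 129 := one_div_le_one_div_of_le (by norm_num) (by linarith)
        linarith)
    nlinarith [mul_le_mul_of_nonneg_left this (Nat.cast_nonneg (α := ℚ) L)]
  · obtain ⟨T, a, b⟩ := feas2 (bd_nv φ) (hM2 φ) (hg2 φ) (Or.inl ⟨rfl, rfl, hh⟩)
    refine absurd (h1 S (e0 ▸ tot_within (a := L) (C := 1) (by simp [hF]) (by omega) hS a
      (fun i k k1 k2 => ?_) (by simpa using bd 1 one_pos))) (not_lt.2 h)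
    have c : |dev _ T i k| ≤ _ := b i k k1 k2
    simp only [pen, hF, List.map_cons, List.map_nil, List.sum_cons, List.sum_nil, e0, e1]
    rw [max_eq_left (sub_nonpos.2 c), max_eq_left (by linarith)]
    linarith

/-- A polynomial-time query algorithm decides the language. -/
theorem inP_of_query {α : Type} [Enc α] {A : Set (List Bool)} {pre q : List Bool → List Bool}
    (h1 : PolyTime pre) (h2 : PolyTime q) {f : Bits → α} {k : Bits → Bin} (hf : PT f) (hk : PT k)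
    (h : ∀ x : Bits, ∃ n : ℕ, q (pair (pre (enc (f x))) (enc (k x))) = enc n ∧
      (x.val ∈ A ↔ 2 ≤ n)) : InP A := by
  have f1 := ((H36.Sim.pt_of_polyTime h1).comp hf.raw).bval
  have h0 : PT fun q : List Bool × Bits => Bits.mk (pair q.1 q.2.val) := by unfold pair; fun_prop
  have f4 := ((H36.Sim.pt_of_polyTime h2).comp (h0.comp (f1.mk hk.raw))).bval
  refine inP_of_pt _ (PT.le (PT.const 2) f4.length) fun x => ?_
  obtain ⟨n, e, h⟩ := h x
  rw [h, decide_eq_true_eq]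
  change _ ↔ 2 ≤ (q (pair (pre (enc (f x))) (enc (k x)))).length
  rw [e]; simp [enc]

end Pool.Agent.H38.Jit
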