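import Pool.Agent.H38.Jit.Defs

/-!
Optimal just-in-time sequences and their implicit representation.
-/

set_option autoImplicit false

namespace Pool.Agent.H38.Jit

open Pool.Agent.H38.NP Finset

/-- `S` is a sequence for the demands `d`: the model `i` occurs exactly `d i` times. -/
def IsSeq (d : List ℕ) (S : Fin d.sum → Fin d.length) : Prop := ∀ i, #{p | S p = i} = d.get i

/-- The deviation `x i k - k r i`. -/
def dev (d : List ℕ) (S : Fin d.sum → Fin d.length) (i : Fin d.length) (k : ℕ) : ℚ :=
  (cnt S i k : ℚ) - k * ((d.get i : ℚ) / d.sum)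

/-- The maximum of `|x i k - k r i|` over all `i` and `1 ≤ k ≤ D` is at most `B`. -/
def Within (d : List ℕ) (S : Fin d.sum → Fin d.length) (B : ℚ) : Prop :=
  ∀ i k, 1 ≤ k → k ≤ d.sum → |dev d S i k| ≤ B

/-- `S` is optimal for the maximum deviation problem with `F i = |·|`. -/
def MaxOpt (d : List ℕ) (S : Fin d.sum → Fin d.length) : Prop :=
  IsSeq d S ∧ ∀ T B, IsSeq d T → Within d T B → Within d S B

/-- The convex penalty `|x| + ∑ a * max 0 (|x| - p / q)`, the sum over the triples `(a, p, q)`
of the list. -/
def pen (F : List (Bin × Bin × Bin)) (x : ℚ) : ℚ :=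
  |x| + (F.map fun t => (t.1.val : ℚ) * max 0 (|x| - (t.2.1.val : ℚ) / t.2.2.val)).sum

/-- The total deviation of `S` for the penalty `pen F`. -/
def total (F : List (Bin × Bin × Bin)) (d : List ℕ) (S : Fin d.sum → Fin d.length) : ℚ :=
  ∑ i, ∑ k ∈ Icc 1 d.sum, pen F (dev d S i k)

/-- `S` is optimal for the total deviation problem with all `F i` equal to `pen F`. -/
def TotOpt (F : List (Bin × Bin × Bin)) (d : List ℕ) (S : Fin d.sum → Fin d.length) : Prop :=
  IsSeq d S ∧ ∀ T, IsSeq d T → total F d S ≤ total F d T

/-- `pre` computes a data structure from the demands (in binary), and `q` answers from it and a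
position (in binary) the model at this position of one fixed optimal sequence. -/
def MaxAlg (pre q : List Bool → List Bool) : Prop :=
  ∀ d : List Bin, (∀ x ∈ d, 0 < x.val) → ∃ S, MaxOpt (d.map Bin.val) S ∧
    ∀ k : Fin (d.map Bin.val).sum, q (pair (pre (enc d)) (enc (Bin.mk k.val))) = enc (S k).val

/-- The same for the total deviation problem, the penalty being part of the input. -/
def TotAlg (pre q : List Bool → List Bool) : Prop :=
  ∀ (F : List (Bin × Bin × Bin)) (d : List Bin), (∀ x ∈ d, 0 < x.val) →
    ∃ S, TotOpt F (d.map Bin.val) S ∧ ∀ k : Fin (d.map Bin.val).sum,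
      q (pair (pre (enc (F, d))) (enc (Bin.mk k.val))) = enc (S k).val

end Pool.Agent.H38.Jit
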