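import Pool.Agent.H38.Jit.Core
import Pool.Agent.H38.ER.Big
import Pool.Agent.H38.NP.Clos

/-!
Reduction from 3SAT to the complement of bottleneck just-in-time sequencing.
-/

set_option autoImplicit false

namespace Pool.Agent.H38.Jit

open Pool.Agent.H38.NP Pool.Agent.H38.ER

abbrev F3 := List (Lit × Lit × Lit)

def lv {R : Type} [Ring R] (p : ℕ → R) (l : Lit) : R := bif l.2 then p (l.1 + 1) else p 0 - p (l.1 + 1)

def forms {R : Type} [Ring R] (N m : ℕ) (p : ℕ → R) (φ : F3) : List R :=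
  0 :: ((List.range (m + 1)).map p ++ (((List.range (m + 1)).map fun j => N * p j) ++
    φ.map fun C => lv p C.1 + lv p C.2.1 + lv p C.2.2 - 2 * p 0))

theorem forms_len {R : Type} [Ring R] (N m : ℕ) (p : ℕ → R) (φ : F3) :
    (forms N m p φ).length = 2 * m + 3 + φ.length := by simp [forms]; omega

theorem forms_map (N m : ℕ) (p : ℕ → ℤ) (φ : F3) (c : ℚ) :
    (forms N m p φ).map (fun s : ℤ => c * s) = forms N m (fun j => c * p j) φ := by
  have e : ∀ l, ((lv p l : ℤ) : ℚ) * c = lv (fun j => c * p j) l := fun l => by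
    unfold lv; cases l.2 <;> simp <;> ring
  simp only [forms, List.map_cons, List.map_append, List.map_map, Function.comp_def]
  congr 1
  · simp
  congr 2
  · exact List.map_congr_left fun _ _ => by push_cast; ring
  · exact List.map_congr_left fun _ _ => by rw [← e, ← e, ← e]; push_cast; ring

theorem forall_forms {R : Type} [Ring R] {N m : ℕ} {p : ℕ → R} {φ : F3} {P : R → Prop} :
    (∀ s ∈ forms N m p φ, P s) ↔ P 0 ∧ (∀ j ≤ m, P (p j)) ∧ (∀ j ≤ m, P (N * p j)) ∧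
      ∀ C ∈ φ, P (lv p C.1 + lv p C.2.1 + lv p C.2.2 - 2 * p 0) := by
  simp only [forms, List.forall_mem_cons, List.forall_mem_append, List.forall_mem_map,
    List.mem_range, Nat.lt_succ_iff]

def Bd (m : ℕ) (φ : F3) : Prop := ∀ C ∈ φ, C.1.1 < m ∧ C.2.1.1 < m ∧ C.2.2.1 < m

theorem dec_sat {M m : ℕ} {η : ℚ} {θ : ℕ → ℚ} {φ : F3} (hφ : Bd m φ) (hη : M * η = 2 / 3)
    (hM : 9 ≤ M) (h1 : ∀ σ ∈ forms (2 * M) m θ φ, Near η σ)
    (h2 : ∃ k : ℤ, η / 2 < θ 0 - k ∧ θ 0 - k < η) : Sat3 φ := by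
  obtain ⟨-, h3, h4, h5⟩ := forall_forms.1 h1
  have hM' : (9 : ℚ) ≤ M := by exact_mod_cast hM
  have e0 : 0 < η := by nlinarith
  have e1 : η ≤ 2 / 27 := by nlinarith
  choose! k hk using h3
  choose! g hg using h4
  obtain ⟨t, ht⟩ : ∃ t : ℕ → ℚ, ∀ j, θ j = t j + k j := ⟨fun j => θ j - k j, fun _ => by ring⟩
  have b1 : ∀ j ≤ m, -η < t j ∧ t j < η := fun j hj => by
    have := hk j hj; rw [ht, abs_lt] at this; constructor <;> linarith [this.1, this.2]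
  have b2 : ∀ j ≤ m, 2 * M * t j < η ∨ (1 - η < 2 * M * t j ∧ 2 * M * t j < 1 + η) := fun j hj => by
    have a := hg j hj
    rw [ht, abs_lt] at a
    push_cast at a
    have c := (b1 j hj).2
    have d : ((g j - 2 * M * k j : ℤ) : ℚ) < 2 := by push_cast; nlinarith [a.1]
    have d' : g j - 2 * M * k j < 2 := by exact_mod_cast d
    rcases (by omega : g j - 2 * M * k j ≤ 0 ∨ g j - 2 * M * k j = 1) with z | z
    · have : ((g j - 2 * M * k j : ℤ) : ℚ) ≤ 0 := by exact_mod_cast z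
      push_cast at this; left; linarith [a.2]
    · have : ((g j - 2 * M * k j : ℤ) : ℚ) = 1 := by exact_mod_cast z
      push_cast at this; right; constructor <;> linarith [a.1, a.2]
  have b3 : 1 - η < 2 * M * t 0 ∧ 2 * M * t 0 < 1 + η := by
    obtain ⟨q, q1, q2⟩ := h2
    rw [ht] at q1 q2
    have c := b1 0 (Nat.zero_le _)
    have d : ((k 0 - q : ℤ) : ℚ) < 1 := by push_cast; linarith [c.1]
    have d' : k 0 - q < 1 := by exact_mod_cast d
    have d'' : ((k 0 - q : ℤ) : ℚ) ≤ 0 := by exact_mod_cast (by omega : k 0 - q ≤ 0)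
    push_cast at d''
    refine (b2 0 (Nat.zero_le _)).resolve_left (by nlinarith)
  refine ⟨fun v => decide (η ≤ 2 * M * t (v + 1)), fun C hC => ?_⟩
  have el : ∀ l, ∃ z : ℤ, lv θ l = lv t l + z := fun l =>
    ⟨lv k l, by unfold lv; cases l.2 <;> simp [ht]; ring⟩
  have b4 : ∀ l : Lit, l.1 < m → -(2 * η) < lv t l ∧
      (decide (η ≤ 2 * M * t (l.1 + 1)) ≠ l.2 → 2 * M * lv t l < 2 * η) := fun l hl => by
    have c := b1 (l.1 + 1) hl
    have c0 := b1 0 (Nat.zero_le _)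
    have d := b2 (l.1 + 1) hl
    unfold lv
    cases l.2
    · simp only [cond_false, ne_eq, Bool.not_eq_false, decide_eq_true_eq]
      refine ⟨by linarith [c.2, c0.1], fun hh => ?_⟩
      have := d.resolve_left (by linarith)
      linarith [b3.2, this.1]
    · simp only [cond_true, ne_eq, decide_eq_true_eq, not_le]
      exact ⟨by linarith [c.1], fun hh => by linarith⟩
  obtain ⟨q, hq⟩ := h5 C hC
  obtain ⟨z1, e1'⟩ := el C.1
  obtain ⟨z2, e2⟩ := el C.2.1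
  obtain ⟨z3, e3⟩ := el C.2.2
  obtain ⟨v1, v2, v3⟩ := hφ C hC
  by_contra hh
  push Not at hh
  obtain ⟨c1, d1⟩ := b4 _ v1
  obtain ⟨c2, d2⟩ := b4 _ v2
  obtain ⟨c3, d3⟩ := b4 _ v3
  have d1 := d1 hh.1
  have d2 := d2 hh.2.1
  have d3 := d3 hh.2.2
  rw [e1', e2, e3, ht, abs_lt] at hq
  have c0 := (b1 0 (Nat.zero_le _)).2
  have d : (-1 : ℚ) < ((q - z1 - z2 - z3 + 2 * k 0 : ℤ) : ℚ) := by push_cast; linarith [hq.2]
  have d' : -1 < q - z1 - z2 - z3 + 2 * k 0 := by exact_mod_cast d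
  have d'' : (0 : ℚ) ≤ ((q - z1 - z2 - z3 + 2 * k 0 : ℤ) : ℚ) := by
    exact_mod_cast (by omega : 0 ≤ q - z1 - z2 - z3 + 2 * k 0)
  push_cast at d''
  have : -η < lv t C.1 + lv t C.2.1 + lv t C.2.2 - 2 * t 0 := by linarith [hq.1]
  nlinarith [b3.1]

theorem enc_sat {M m : ℕ} {η : ℚ} {θ τ : ℕ → ℚ} {k : ℕ → ℤ} {φ : F3} {a : ℕ → Bool}
    (hφ : Bd m φ) (hη : M * η = 2 / 3) (hM : 9 ≤ M)
    (ha : ∀ C ∈ φ, a C.1.1 = C.1.2 ∨ a C.2.1.1 = C.2.1.2 ∨ a C.2.2.1 = C.2.2.2)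
    (hθ : ∀ j ≤ m, θ j = k j + (if j = 0 then 1 else (a (j - 1)).toNat) * (3 / 4 * η) + τ j)
    (hτ : ∀ j ≤ m, 0 ≤ τ j ∧ τ j ≤ 3 / 8 * η ^ 2) :
    (∀ σ ∈ forms (2 * M) m θ φ, Near η σ) ∧ ∃ k : ℤ, η / 2 < θ 0 - k ∧ θ 0 - k < η := by
  have hM' : (9 : ℚ) ≤ M := by exact_mod_cast hM
  have e0 : 0 < η := by nlinarith
  have e1 : η ≤ 2 / 27 := by nlinarith
  have e2 : η ^ 2 ≤ 2 / 27 * η := by nlinarith
  have t0 := hθ 0 (Nat.zero_le _)
  have u0 := hτ 0 (Nat.zero_le _)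
  rw [if_pos rfl] at t0
  refine ⟨forall_forms.2 ⟨⟨0, by simpa⟩, fun j hj => ⟨k j, ?_⟩, fun j hj =>
    ⟨2 * M * k j + if j = 0 then 1 else (a (j - 1)).toNat, ?_⟩, fun C hC => ?_⟩, k 0, ?_, ?_⟩
  · have := hτ j hj
    rw [hθ j hj, abs_lt]
    split_ifs
    · constructor <;> linarith [this.1, this.2]
    · cases a (j - 1) <;> simp <;> constructor <;> linarith [this.1, this.2]
  · have := hτ j hj
    have e : ((2 * M : ℕ) : ℚ) * θ j - ((2 * M * k j + if j = 0 then 1 else (a (j - 1)).toNat : ℤ) : ℚ)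
        = 2 * M * τ j := by
      rw [hθ j hj]; push_cast
      linear_combination (3 / 2 * if j = 0 then (1 : ℚ) else (a (j - 1)).toNat) * hη
    rw [e, abs_lt]
    constructor <;> nlinarith [this.1, this.2]
  · have el : ∀ l : Lit, l.1 < m → ∃ (z : ℤ) (w : ℚ), lv θ l = z + w ∧ -(3 / 8 * η ^ 2) ≤ w ∧
        w ≤ 3 / 4 * η + 3 / 8 * η ^ 2 ∧ (a l.1 = l.2 → 3 / 4 * η - 3 / 8 * η ^ 2 ≤ w) := by
      intro l hl
      have c := hθ (l.1 + 1) hl
      have d := hτ (l.1 + 1) hl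
      rw [if_neg (by omega), Nat.add_sub_cancel] at c
      refine ⟨lv k l, lv θ l - lv k l, by ring, ?_⟩
      unfold lv
      rw [c, t0]
      cases l.2 <;> cases a l.1 <;> simp <;> refine ⟨?_, ?_⟩ <;> try refine ⟨?_, ?_⟩
      all_goals linarith [d.1, d.2, u0.1, u0.2]
    obtain ⟨v1, v2, v3⟩ := hφ C hC
    obtain ⟨z1, w1, a1, b1, c1, d1⟩ := el _ v1
    obtain ⟨z2, w2, a2, b2, c2, d2⟩ := el _ v2
    obtain ⟨z3, w3, a3, b3, c3, d3⟩ := el _ v3
    refine ⟨z1 + z2 + z3 - 2 * k 0, ?_⟩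
    rw [a1, a2, a3, t0, abs_lt]
    push_cast
    refine ⟨?_, by linarith [u0.1]⟩
    rcases ha C hC with h | h | h
    · linarith [d1 h, u0.2]
    · linarith [d2 h, u0.2]
    · linarith [d3 h, u0.2]
  · linarith [u0.1]
  · linarith [u0.2]

end Pool.Agent.H38.Jit
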